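import Pool.Agent.K1H69.MZ.Glob

set_option autoImplicit false

/-! Compactness: one exponent for all the points. -/

namespace Pool.Agent.K1H69.MZ

open MvPolynomial Pool.Agent.H936R2 Pool.Agent.R847.Gap Topology

section

variable {K : Type} [Field K] {ι : Type} [Fintype ι] [DecidableEq ι]
variable {L : Type} [NontriviallyNormedField L] [IsUltrametricDist L] [CharZero L] [ProperSpace L]
variable {σ : K →+* L} {S : Set (MvPolynomial ι K)}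
variable (p : ℕ) [hp : Fact p.Prime] (hpL : ‖(p : L)‖ < 1)

include hp in
omit [DecidableEq ι] in
lemma exists_centers (Q : Set (MvPolynomial ι (unitBall L))) :
    ∃ C : Set (ι → unitBall L), C.Finite ∧ (∀ x ∈ C, x ∈ ZS Q ∧ Prim x) ∧
      ∀ z ∈ ZS Q, Prim z → ∃ x ∈ C, ∃ u, z = dsc p x u := by
  classical
  have hp0 := norm_p_pos' (L := L) p
  obtain ⟨t, -, htf, hcov⟩ := (isCompact_closedBall (0 : ι → L) 1).finite_cover_balls
    (show 0 < ‖(p : L)‖ ^ 2 by positivity)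
  let good : (ι → L) → Prop := fun c =>
    ∃ x : ι → unitBall L, (x ∈ ZS Q ∧ Prim x) ∧ ∀ i, ‖(x i : L) - c i‖ < ‖(p : L)‖ ^ 2
  let sel : (ι → L) → (ι → unitBall L) := fun c => if h : good c then h.choose else 0
  have hsel : ∀ c, good c → (sel c ∈ ZS Q ∧ Prim (sel c)) ∧
      ∀ i, ‖(sel c i : L) - c i‖ < ‖(p : L)‖ ^ 2 := by
    intro c hc
    simp only [sel, hc, dite_true]
    exact hc.choose_spec
  refine ⟨sel '' {c | c ∈ t ∧ good c}, (htf.subset fun c hc => hc.1).image _, ?_, ?_⟩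
  · rintro _ ⟨c, ⟨-, hc⟩, rfl⟩
    exact (hsel c hc).1
  · intro z hz hzp
    have h1 : (fun i => (z i : L)) ∈ Metric.closedBall (0 : ι → L) 1 := by
      rw [mem_closedBall_zero_iff, pi_norm_le_iff_of_nonneg zero_le_one]
      intro j
      exact unitBall_norm_le (z j)
    obtain ⟨c, hct, hc⟩ := Set.mem_iUnion₂.1 (hcov h1)
    rw [Metric.mem_ball, dist_eq_norm] at hc
    have h2 : ∀ i, ‖(z i : L) - c i‖ < ‖(p : L)‖ ^ 2 := fun i =>
      (norm_le_pi_norm ((fun i => (z i : L)) - c) i).trans_lt hc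
    have hg : good c := ⟨z, ⟨hz, hzp⟩, h2⟩
    refine ⟨sel c, ⟨c, ⟨hct, hg⟩, rfl⟩, ?_⟩
    have h3 : ∀ i, ∃ v : unitBall L, z i - sel c i = (p : unitBall L) ^ 2 * v := by
      intro i
      apply exists_div' p _ 2
      have h4 : ((z i - sel c i : unitBall L) : L) =
          ((z i : L) - c i) + (c i - (sel c i : L)) := by push_cast; ring
      rw [h4]
      refine (IsUltrametricDist.norm_add_le_max _ _).trans (max_le (h2 i).le ?_)
      rw [norm_sub_rev]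
      exact ((hsel c hg).2 i).le
    choose u hu using h3
    refine ⟨u, funext fun i => ?_⟩
    simp only [dsc]
    linear_combination hu i

omit [Fintype ι] [DecidableEq ι] [IsUltrametricDist L] [CharZero L] [ProperSpace L] in
lemma near_smul {x : ι → L} {c : L} (hc : c ≠ 0) {f : MvPolynomial ι K}
    (h : ∃ U ∈ 𝓝 x, f ∈ VI (Nb S σ U)) : ∃ U ∈ 𝓝 (c • x), f ∈ VI (Nb S σ U) := by
  obtain ⟨U, hU, hf⟩ := h
  refine ⟨(fun v => c⁻¹ • v) ⁻¹' U, ?_, VI_anti ?_ hf⟩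
  · refine (continuous_const_smul c⁻¹).continuousAt.preimage_mem_nhds ?_
    rw [smul_smul, inv_mul_cancel₀ hc, one_smul]
    exact hU
  · rintro y ⟨h1, h2, c', hc', h3⟩
    refine ⟨h1, h2, c⁻¹ * c', mul_ne_zero (inv_ne_zero hc) hc', ?_⟩
    have e : (fun i => c⁻¹ * c' * σ (y i)) = c⁻¹ • (fun i => c' * σ (y i)) := by
      funext i
      rw [Pi.smul_apply, smul_eq_mul, mul_assoc]
    rw [e]
    exact h3

omit [Fintype ι] [DecidableEq ι] [IsUltrametricDist L] [CharZero L] [ProperSpace L] in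
lemma near_smul_iff {x : ι → L} {c : L} (hc : c ≠ 0) {f : MvPolynomial ι K} :
    (∃ U ∈ 𝓝 x, f ∈ VI (Nb S σ U)) ↔ ∃ U ∈ 𝓝 (c • x), f ∈ VI (Nb S σ U) := by
  refine ⟨near_smul hc, fun h => ?_⟩
  have h1 := near_smul (inv_ne_zero hc) h
  rwa [smul_smul, inv_mul_cancel₀ hc, one_smul] at h1

omit [Fintype ι] [DecidableEq ι] [ProperSpace L] in
lemma mem_ZS_of_L (hSh : ∀ s ∈ S, ∃ d : ℕ, s.IsHomogeneous d) {x : ι → L}
    (hx : ∀ s ∈ S, eval₂ σ x s = 0) {z : ι → unitBall L} {c : L}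
    (hz : ∀ i, (z i : L) = c * x i) : z ∈ ZS (QS σ S) := by
  rintro q ⟨c', s, hs, hq⟩
  obtain ⟨d, hd⟩ := hSh s hs
  apply Subtype.ext
  have h2 : (fun i => (z i : L)) = fun i => c * x i := funext hz
  rw [eval_coe, hq, map_mul, eval_C, h2, eval_hom (hd.map σ), eval_map, hx s hs, mul_zero,
    mul_zero]
  rfl

include hp hpL in
/-- **All the local closures.** -/
theorem glob_main [Infinite K] (hZar : ∀ Y : Set (ι → K),
      (VI Y).minimalPrimes.Finite ∧ (∀ f, f ∈ VI Y ↔ ∀ P ∈ (VI Y).minimalPrimes, f ∈ P) ∧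
      ∀ P ∈ (VI Y).minimalPrimes,
      (∃ (f₀ : MvPolynomial ι K) (d : ℕ), f₀.IsHomogeneous d ∧
        P = VI {y | y ∈ Y ∧ eval y f₀ ≠ 0} ∧ ∀ g ∈ P, f₀ * g ∈ VI Y) ∧
      ∀ f ∈ P, ∀ j : ℕ, homogeneousComponent j f ∈ P)
    (hSh : ∀ s ∈ S, ∃ d : ℕ, s.IsHomogeneous d) {m : ℕ} (φ : Fin m → Aut S)
    (F G : ∀ i, Sys L ι (Fin (φ i).m)) (hF : ∀ i, Lifts σ (φ i).f (F i))
    (h : ∀ i, Good (QS σ S) (F i) (G i)) :
    ∃ k : ℕ, 0 < k ∧ ∀ x : ι → L, x ≠ 0 → (∀ s ∈ S, eval₂ σ x s = 0) →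
      ∃ T : Set (Ideal (MvPolynomial ι K)), T.Finite ∧ T ⊆ Inv S φ k ∧
      ∀ f : MvPolynomial ι K, (∃ U ∈ 𝓝 x, f ∈ VI (Nb S σ U)) ↔ ∀ P ∈ T, f ∈ P := by
  classical
  obtain ⟨C, hCf, hC, hCz⟩ := exists_centers p (QS σ S)
  have hk : ∀ (x : ι → unitBall L) (i : Fin m), ∃ k : ℕ, 0 < k ∧ (x ∈ C →
      ∃ H, Window p (QS σ S) (F i) x k H) := by
    intro x i
    by_cases hx : x ∈ C
    · obtain ⟨k, H, hk, hI, horb⟩ := win p hpL (h i) (hC x hx).1 (hC x hx).2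
      exact ⟨k, hk, fun _ => ⟨H, hI, horb⟩⟩
    · exact ⟨1, one_pos, fun h => absurd h hx⟩
  choose kk hkk hW using hk
  refine ⟨∏ x ∈ hCf.toFinset, ∏ i, kk x i,
    Finset.prod_pos fun x _ => Finset.prod_pos fun i _ => hkk x i, fun x hx0 hxS => ?_⟩
  obtain ⟨j₀, hj₀⟩ := Function.ne_iff.1 hx0
  have : Nonempty ι := ⟨j₀⟩
  obtain ⟨j, hj⟩ := Finite.exists_max (fun i => ‖x i‖)
  have hxj : x j ≠ 0 := by
    intro h0
    have h1 := hj j₀
    rw [h0, norm_zero] at h1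
    exact hj₀ (norm_le_zero_iff.1 h1)
  have hc : (x j)⁻¹ ≠ 0 := inv_ne_zero hxj
  have hz1 : ∀ i, ‖(x j)⁻¹ * x i‖ ≤ 1 := by
    intro i
    rw [norm_mul, norm_inv, ← div_eq_inv_mul, div_le_one (norm_pos_iff.2 hxj)]
    exact hj i
  let z : ι → unitBall L := fun i => ⟨(x j)⁻¹ * x i, hz1 i⟩
  have hzZ : z ∈ ZS (QS σ S) := mem_ZS_of_L hSh hxS (c := (x j)⁻¹) fun i => rfl
  have hzp : Prim z := by
    refine ⟨j, ?_⟩
    change ‖(x j)⁻¹ * x j‖ = 1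
    rw [inv_mul_cancel₀ hxj, norm_one]
  obtain ⟨x₀, hx₀, u₀, hu₀⟩ := hCz z hzZ hzp
  obtain ⟨T, hT1, hT2, hT3⟩ := local_main p hpL hZar hSh φ F G hF h (hC x₀ hx₀).2 (kk x₀)
    (fun i => hW x₀ i hx₀) u₀ (k := ∏ x ∈ hCf.toFinset, ∏ i, kk x i) (fun i =>
      (Finset.dvd_prod_of_mem (kk x₀) (Finset.mem_univ i)).trans
        (Finset.dvd_prod_of_mem (fun x => ∏ i, kk x i) (hCf.mem_toFinset.2 hx₀)))
  refine ⟨T, hT1, hT2, fun f => ?_⟩
  rw [← hT3 f, near_smul_iff hc]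
  have e : (fun i => (dsc p x₀ u₀ i : L)) = (x j)⁻¹ • x := by
    rw [← hu₀]
    rfl
  rw [e]

end


end Pool.Agent.K1H69.MZ
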