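import Pool.Agent.K1H69.MZ.Core
import Pool.Agent.W279.Tri.LocComp

set_option autoImplicit false

/-! From the local statement to all the points of the variety over the completion. -/

namespace Pool.Agent.K1H69.MZ

open MvPolynomial Pool.Agent.H936R2 Pool.Agent.R847.Gap Topology

section

variable {K : Type} [Field K] {ι : Type} {S : Set (MvPolynomial ι K)}

lemma Img.tuple {φ : Aut S} {k : ℕ} : ∀ {z w : ι → K}, Img φ k z w →
    ∃ (Fk : ι → MvPolynomial ι K) (D : ℕ), 0 < D ∧ (∀ i, (Fk i).IsHomogeneous D) ∧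
      (fun i => eval z (Fk i)) = w ∧
      ∀ y : ι → K, (fun i => eval y (Fk i)) ≠ 0 → Img φ k y (fun i => eval y (Fk i)) := by
  induction k with
  | zero =>
    rintro z w rfl
    refine ⟨fun i => X i, 1, one_pos, fun i => isHomogeneous_X _ i, ?_, fun y _ => ?_⟩
    · funext i; exact eval_X i
    · change (fun i => eval y (X i)) = y
      funext i; exact eval_X i
  | succ k ih =>
    rintro z w ⟨v, hv, a, rfl, hw⟩
    obtain ⟨Fk, D, hD, hFk, hz, hy⟩ := ih hv
    have e : ∀ y : ι → K, (fun i => eval y (aeval Fk (φ.f a i))) =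
        Val (RingHom.id K) (φ.f a) (fun i => eval y (Fk i)) := by
      intro y
      funext i
      exact eval_aeval_poly Fk y (φ.f a i)
    refine ⟨fun i => aeval Fk (φ.f a i), D * φ.d a, Nat.mul_pos hD (φ.d_pos a),
      fun i => (φ.f_hom a i).aeval Fk hFk, ?_, fun y h0 => ?_⟩
    · rw [e, hz]
    · rw [e] at h0 ⊢
      refine ⟨_, hy y ?_, a, rfl, h0⟩
      intro h1
      rw [h1] at h0
      apply h0
      have h2 := Val_smul (RingHom.id K) (φ.f_hom a) 0 (0 : ι → K)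
      rw [smul_zero, zero_pow (φ.d_pos a).ne', zero_smul] at h2
      exact h2

lemma Img.ne_zero {φ : Aut S} {k : ℕ} {z w : ι → K} (hz : z ≠ 0) (h : Img φ k z w) : w ≠ 0 := by
  cases k with
  | zero => rw [show w = z from h]; exact hz
  | succ k => exact h.choose_spec.2.choose_spec.2

lemma eval_smul_hom {P : MvPolynomial ι K} {d : ℕ} (hP : P.IsHomogeneous d) (t : K) (y : ι → K) :
    eval (t • y) P = t ^ d * eval y P := eval_hom hP t y

/-- the prime ideals which are the vanishing ideals of their points, stable under the `k`-th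
iterates -/
def Inv (S : Set (MvPolynomial ι K)) {r : ℕ} (φ : Fin r → Aut S) (k : ℕ) :
    Set (Ideal (MvPolynomial ι K)) :=
  {P | P.IsPrime ∧ (∀ s ∈ S, s ∈ P) ∧ P = VI (Zset (P : Set (MvPolynomial ι K))) ∧
    ∀ i, ∀ z ∈ Zset (P : Set (MvPolynomial ι K)), ∀ w, Img (φ i) k z w →
      w ∈ Zset (P : Set (MvPolynomial ι K))}

end

section

variable {K : Type} [Field K] {ι : Type} [Fintype ι] [DecidableEq ι]
variable {L : Type} [NormedField L] [IsUltrametricDist L] [CharZero L] [ProperSpace L]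
variable {σ : K →+* L} {S : Set (MvPolynomial ι K)}
variable (p : ℕ) [hp : Fact p.Prime] (hpL : ‖(p : L)‖ < 1)

include hp hpL in
theorem core2 (hSh : ∀ s ∈ S, ∃ d : ℕ, s.IsHomogeneous d) (φ : Aut S)
    {F G : Sys L ι (Fin φ.m)} (hF : Lifts σ φ.f F) (h : Good (QS σ S) F G)
    {x : ι → unitBall L} (hxp : Prim x) {k₀ : ℕ} {H : ι → MvPolynomial ι (unitBall L)}
    (hW : Window p (QS σ S) F x k₀ H) {u₀ : ι → unitBall L} {r : ℕ} (hr : 2 ≤ r)
    {P : Ideal (MvPolynomial ι K)} (hPp : P.IsPrime)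
    (hPh : ∀ f ∈ P, ∀ j : ℕ, homogeneousComponent j f ∈ P)
    {f₀ : MvPolynomial ι K} {d : ℕ} (hf₀ : f₀.IsHomogeneous d)
    (hP : P = VI {y | y ∈ Nb S σ (PD p r (dsc p x u₀)) ∧ eval y f₀ ≠ 0})
    (hfg : ∀ g ∈ P, f₀ * g ∈ VI (Nb S σ (PD p r (dsc p x u₀)))) {k : ℕ} (hk : k₀ ∣ k)
    {z w : ι → K} (hz : z ∈ Zset (P : Set (MvPolynomial ι K))) (hw : Img φ k z w) :
    w ∈ Zset (P : Set (MvPolynomial ι K)) := by
  refine ⟨hw.ne_zero hz.1, fun g hg => ?_⟩
  obtain ⟨Fk, D, hD, hFk, hFz, hFy⟩ := hw.tuple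
  have hj : ∀ j, eval w (homogeneousComponent j g) = 0 := by
    intro j
    have h1 := hPh g hg j
    have h2 := homogeneousComponent_isHomogeneous j g
    set gj := homogeneousComponent j g with hgj
    have h3 : aeval Fk gj ∈ P := by
      rw [hP]
      rintro y ⟨hy, hy0⟩ t
      have h4 : (aeval Fk gj).IsHomogeneous (D * j) := h2.aeval Fk hFk
      rw [eval_smul_hom h4, eval_aeval_poly]
      by_cases h5 : (fun i => eval y (Fk i)) = 0
      · rw [h5]
        have h6 := eval_smul_hom h2 0 (0 : ι → K)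
        rw [smul_zero] at h6
        rcases Nat.eq_zero_or_pos j with rfl | hjp
        · -- constants in a prime ideal
          have h7 : gj = C (coeff 0 g) := homogeneousComponent_zero g
          have h8 : coeff 0 g = 0 := by
            by_contra h9
            apply hPp.ne_top
            rw [Ideal.eq_top_iff_one]
            have h10 := P.mul_mem_left (C (coeff 0 g)⁻¹) h1
            rw [h7, ← C_mul, inv_mul_cancel₀ h9, C_1] at h10
            exact h10
          rw [h7, h8, C_0, map_zero, mul_zero]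
        · rw [h6, zero_pow hjp.ne', zero_mul, mul_zero]
      · rw [core1 p hpL hSh φ hF h hxp hW hr hf₀ h2 (hfg gj h1) hy hy0 hk (hFy y h5), mul_zero]
    have h4 := hz.2 _ h3
    rw [eval_aeval_poly, hFz] at h4
    exact h4
  rw [← sum_homogeneousComponent g, map_sum]
  exact Finset.sum_eq_zero fun j _ => hj j

include hp hpL in
/-- **The structure of a local closure.** -/
theorem local_main [Infinite K] (hZar : ∀ Y : Set (ι → K),
      (VI Y).minimalPrimes.Finite ∧ (∀ f, f ∈ VI Y ↔ ∀ P ∈ (VI Y).minimalPrimes, f ∈ P) ∧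
      ∀ P ∈ (VI Y).minimalPrimes,
      (∃ (f₀ : MvPolynomial ι K) (d : ℕ), f₀.IsHomogeneous d ∧
        P = VI {y | y ∈ Y ∧ eval y f₀ ≠ 0} ∧ ∀ g ∈ P, f₀ * g ∈ VI Y) ∧
      ∀ f ∈ P, ∀ j : ℕ, homogeneousComponent j f ∈ P)
    (hSh : ∀ s ∈ S, ∃ d : ℕ, s.IsHomogeneous d) {m : ℕ} (φ : Fin m → Aut S)
    (F G : ∀ i, Sys L ι (Fin (φ i).m)) (hF : ∀ i, Lifts σ (φ i).f (F i))
    (h : ∀ i, Good (QS σ S) (F i) (G i)) {x : ι → unitBall L} (hxp : Prim x) (k₀ : Fin m → ℕ)
    (hW : ∀ i, ∃ H, Window p (QS σ S) (F i) x (k₀ i) H) (u₀ : ι → unitBall L)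
    {k : ℕ} (hk : ∀ i, k₀ i ∣ k) :
    ∃ T : Set (Ideal (MvPolynomial ι K)), T.Finite ∧ T ⊆ Inv S φ k ∧
      ∀ f : MvPolynomial ι K, (∃ U ∈ 𝓝 (fun i => (dsc p x u₀ i : L)), f ∈ VI (Nb S σ U)) ↔
        ∀ P ∈ T, f ∈ P := by
  have hp0 := norm_p_pos' (L := L) p
  obtain ⟨U₀, hU₀, hmax⟩ := exists_nhd S σ (fun i => (dsc p x u₀ i : L))
  obtain ⟨ε, hε, hball⟩ := Metric.mem_nhds_iff.1 hU₀
  obtain ⟨r', hr'⟩ := exists_pow_lt_of_lt_one hε hpL
  set r := max r' 2 with hr
  have hr2 : 2 ≤ r := le_max_right _ _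
  have hrε : ‖(p : L)‖ ^ r < ε :=
    (pow_le_pow_of_le_one hp0.le hpL.le (le_max_left _ _)).trans_lt hr'
  have hsub : PD p r (dsc p x u₀) ⊆ U₀ := by
    intro z hz
    apply hball
    rw [Metric.mem_ball, dist_eq_norm]
    refine lt_of_le_of_lt ?_ hrε
    rw [pi_norm_le_iff_of_nonneg (by positivity)]
    exact hz
  have hnhd : PD p r (dsc p x u₀) ∈ 𝓝 (fun i => (dsc p x u₀ i : L)) := by
    rw [Metric.mem_nhds_iff]
    refine ⟨‖(p : L)‖ ^ r, by positivity, fun z hz i => ?_⟩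
    rw [Metric.mem_ball, dist_eq_norm] at hz
    exact (norm_le_pi_norm (z - fun i => (dsc p x u₀ i : L)) i).trans hz.le
  set Y := Nb S σ (PD p r (dsc p x u₀)) with hY
  obtain ⟨h1, h2, h3⟩ := hZar Y
  refine ⟨(VI Y).minimalPrimes, h1, fun P hP => ?_, fun f => ?_⟩
  · obtain ⟨⟨f₀, d, hf₀, hPf, hfg⟩, hPh⟩ := h3 P hP
    have hPp : P.IsPrime := hP.1.1
    refine ⟨hPp, fun s hs => hP.1.2 ?_, ?_, fun i z hz w hw => ?_⟩
    · intro y hy t
      obtain ⟨d, hd⟩ := hSh s hs
      rw [eval_smul_hom hd, hy.2.1 s hs, mul_zero]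
    · apply le_antisymm
      · intro f hf z hz t
        rw [← sum_homogeneousComponent f, map_sum]
        refine Finset.sum_eq_zero fun j _ => ?_
        rw [eval_smul_hom (homogeneousComponent_isHomogeneous j f), hz.2 _ (hPh f hf j), mul_zero]
      · have h4 : {y | y ∈ Y ∧ eval y f₀ ≠ 0} ⊆ Zset (P : Set (MvPolynomial ι K)) := by
          intro y hy
          refine ⟨hy.1.1, fun f hf => ?_⟩
          have h5 : f ∈ P := hf
          rw [hPf] at h5
          have h6 := h5 y hy 1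
          rwa [one_smul] at h6
        calc VI (Zset (P : Set (MvPolynomial ι K))) ≤ VI {y | y ∈ Y ∧ eval y f₀ ≠ 0} :=
              VI_anti h4
          _ = P := hPf.symm
    · obtain ⟨H, hH⟩ := hW i
      exact core2 p hpL hSh (φ i) (hF i) (h i) hxp hH hr2 hPp hPh hf₀ hPf hfg (hk i) hz hw
  · rw [← h2 f]
    constructor
    · rintro ⟨U, hU, hf⟩
      exact VI_anti (Nb_mono S σ hsub) (hmax U hU hf)
    · intro hf
      exact ⟨_, hnhd, hf⟩

end

end Pool.Agent.K1H69.MZ
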