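import Pool.Agent.K1H69.MZ.Dyn

set_option autoImplicit false

/-! Near recurrence of the orbits and the zeros of forms along the orbits. -/

namespace Pool.Agent.K1H69.MZ

open MvPolynomial Pool.Agent.H936R2 Pool.Agent.R847.Gap Filter Topology

variable {ι : Type} {L : Type} [NormedField L] [IsUltrametricDist L]
variable {A B : Type} {Q : Set (MvPolynomial ι (unitBall L))} {F : Sys L ι A} {G : Sys L ι B}
variable (p : ℕ)

/-- `H` is a window of time `k` at `x` -/
structure Window (Q : Set (MvPolynomial ι (unitBall L))) (F : Sys L ι A) (x : ι → unitBall L)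
    (k : ℕ) (H : ι → MvPolynomial ι (unitBall L)) : Prop where
  idem : IdemMod ((p : unitBall L) ^ 2) H
  orb : ∀ u, dsc p x u ∈ ZS Q → ∀ n, dsc p x ((pt H)^[n] u) ∈ ZS Q ∧
        Rp F (k * n) (dsc p x u) (dsc p x ((pt H)^[n] u))

/-- the polynomial in the coordinate of the disc -/
noncomputable def sub (x : ι → unitBall L) (q : MvPolynomial ι (unitBall L)) :
    MvPolynomial ι (unitBall L) := aeval (fun i => C (x i) + C ((p : unitBall L) ^ 2) * X i) q

lemma eval_sub (x v : ι → unitBall L) (q : MvPolynomial ι (unitBall L)) :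
    eval v (sub p x q) = eval (dsc p x v) q := by
  unfold sub
  rw [eval_aeval_poly]
  have e : (fun i => eval v (C (x i) + C ((p : unitBall L) ^ 2) * X i :
      MvPolynomial ι (unitBall L))) = dsc p x v := by
    funext i
    simp [dsc]
  rw [← e]

variable [Fintype ι] [DecidableEq ι] [ProperSpace L] [CharZero L]
variable [hp : Fact p.Prime] (hpL : ‖(p : L)‖ < 1)

include hp hpL in
omit [ProperSpace L] in
/-- **Recurrence.** -/
theorem near_return (h : Good Q F G) {x : ι → unitBall L} (hxp : Prim x) {k : ℕ}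
    {H : ι → MvPolynomial ι (unitBall L)} (hW : Window p Q F x k H) {u : ι → unitBall L}
    (hu : dsc p x u ∈ ZS Q) (c : ℕ) (hc : 0 < c) (m : ℕ) :
    Cl (‖(p : L)‖ ^ c) (dsc p x u) (dsc p x ((pt H)^[p ^ c * m] u)) := by
  have hp0 := norm_p_pos' (L := L) p
  have hδ0 : 0 ≤ ‖(p : L)‖ ^ c := by positivity
  have hδ : ‖(p : L)‖ ^ c < 1 := pow_lt_one₀ hp0.le hpL hc.ne'
  have hprim : ∀ v : ι → unitBall L, Prim (dsc p x v) := fun v => prim_add p hpL hxp
  -- the first step
  have h1 : ∀ v, dsc p x v ∈ ZS Q → Cl (‖(p : L)‖ ^ c) (dsc p x v)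
      (dsc p x ((pt H)^[p ^ c] v)) := by
    intro v hv
    have hn := (hW.orb v hv c).2
    have hv' := (hW.orb v hv (p ^ c)).1
    have hn' := (hW.orb _ hv' c).2
    refine Rp.back h hδ0 hδ hv (hprim _) hv' (hprim _) hn hn' ?_
    rw [← Function.iterate_add_apply]
    refine Cl.of_near (c := 1) fun j => ?_
    have h2 := valSeq_shift' p hpL H hW.idem v (X j) c c
    have h3 : nm ((pt H)^[c + p ^ c] v j - (pt H)^[c] v j) ≤ ‖(p : L)‖ ^ c := by
      refine le_trans ?_ (h2.trans (max_le le_rfl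
        (pow_le_pow_of_le_one hp0.le hpL.le (by omega))))
      apply le_of_eq
      simp only [valSeq, eval_X, nm]
      push_cast
      rfl
    have e : dsc p x ((pt H)^[c + p ^ c] v) j - 1 * dsc p x ((pt H)^[c] v) j =
        (p : unitBall L) ^ 2 * ((pt H)^[c + p ^ c] v j - (pt H)^[c] v j) := by
      simp only [dsc]; ring
    rw [e]
    exact nm_mul_le_right _ h3
  induction m with
  | zero => exact Cl.self hδ0 _
  | succ m ih =>
    have h2 := h1 _ (hW.orb u hu (p ^ c * m)).1
    rw [← Function.iterate_add_apply] at h2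
    have e : p ^ c * (m + 1) = p ^ c + p ^ c * m := by ring
    rw [e]
    exact ih.trans hδ (hprim _) (hprim _) (hprim _) h2

omit [Fintype ι] [DecidableEq ι] [ProperSpace L] [CharZero L] in
lemma eval_eq_zero_of_cl {q : MvPolynomial ι (unitBall L)} {d : ℕ} (hq : q.IsHomogeneous d)
    {z w : ι → unitBall L} (hz : Prim z) (hw : Prim w) (h : Cl 0 z w) (h0 : eval z q = 0) :
    eval w q = 0 := by
  obtain ⟨c, -, rfl⟩ := h.eq_smul hz hw
  rw [eval_hom hq, h0, mul_zero]

include hp hpL in
/-- **Zeros along the orbits.** -/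
theorem all_zero (h : Good Q F G) {x : ι → unitBall L} (hxp : Prim x) {k : ℕ}
    {H : ι → MvPolynomial ι (unitBall L)} (hW : Window p Q F x k H) {u : ι → unitBall L}
    (hu : dsc p x u ∈ ZS Q) {q : MvPolynomial ι (unitBall L)} {d : ℕ} (hq : q.IsHomogeneous d)
    (hinf : {n | eval (dsc p x ((pt H)^[n] u)) q = 0}.Infinite) (n : ℕ) :
    eval (dsc p x ((pt H)^[n] u)) q = 0 := by
  have hp0 := norm_p_pos' (L := L) p
  have hprim : ∀ v : ι → unitBall L, Prim (dsc p x v) := fun v => prim_add p hpL hxp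
  obtain ⟨y, hy⟩ := exists_shadow' p hpL H hW.idem u
  have hyQ : dsc p x y ∈ ZS Q := by
    intro r hr
    have h1 := (hy (sub p x r)).2.2 (fun n => by
      rw [valSeq, eval_sub]; exact (hW.orb u hu n).1 r hr) 0
    rw [valSeq, eval_sub] at h1
    exact h1
  -- the orbits of the two points are exponentially near
  have hcl : ∀ n, 0 < n → Cl (‖(p : L)‖ ^ (2 * n)) (dsc p x u) (dsc p x y) := by
    intro n hn
    refine Rp.back h (by positivity) (pow_lt_one₀ hp0.le hpL (by omega)) hu (hprim _) hyQ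
      (hprim _) (hW.orb u hu n).2 (hW.orb y hyQ n).2 ?_
    refine Cl.of_near (c := 1) fun j => ?_
    have h2 := (hy (X j)).1 n
    have h3 : nm ((pt H)^[n] y j - (pt H)^[n] u j) ≤ ‖(p : L)‖ ^ (2 * n) := by
      rw [nm_sub_comm]
      refine le_trans ?_ h2
      apply le_of_eq
      simp only [valSeq, eval_X, nm]
      push_cast
      rfl
    have e : dsc p x ((pt H)^[n] y) j - 1 * dsc p x ((pt H)^[n] u) j =
        (p : unitBall L) ^ 2 * ((pt H)^[n] y j - (pt H)^[n] u j) := by
      simp only [dsc]; ring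
    rw [e]
    exact nm_mul_le_right _ h3
  have hcl0 : Cl 0 (dsc p x u) (dsc p x y) := by
    intro i j
    refine le_of_forall_pos_lt_add fun ε hε => ?_
    obtain ⟨n, hn⟩ := exists_pow_lt_of_lt_one hε hpL
    rw [zero_add]
    refine (hcl (n + 1) (Nat.succ_pos n) i j).trans_lt (lt_of_le_of_lt ?_ hn)
    exact pow_le_pow_of_le_one hp0.le hpL.le (by omega)
  have hcln : ∀ n, Cl 0 (dsc p x ((pt H)^[n] u)) (dsc p x ((pt H)^[n] y)) := fun n =>
    Rp.contr h le_rfl zero_lt_one hu (hprim _) hyQ (hprim _) hcl0 (hW.orb u hu n).2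
      (hW.orb y hyQ n).2
  -- the Newton series
  set s : ℕ → unitBall L := valSeq H y (sub p x q) with hs
  have hsn : ∀ n, s n = eval (dsc p x ((pt H)^[n] y)) q := fun n => by
    rw [hs, valSeq, eval_sub]
  have hsz : ∀ n, ((s n : unitBall L) : L) = 0 := by
    refine newton_zero (fun j => (((fwdDiff 1)^[j] s 0 : unitBall L) : L) / (j.factorial : L)) _
      (fun n => ?_) ?_ ?_
    · have h1 := shift_eq_sum_fwdDiff_iter (1 : ℕ) s n 0
      simp only [smul_eq_mul, mul_one, zero_add] at h1
      rw [h1]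
      push_cast
      apply Finset.sum_congr rfl
      intro j _
      have hj : (j.factorial : L) ≠ 0 := Nat.cast_ne_zero.2 j.factorial_ne_zero
      rw [Nat.descFactorial_eq_factorial_mul_choose]
      push_cast
      rw [nsmul_eq_mul]
      field_simp
    · rw [tendsto_zero_iff_norm_tendsto_zero]
      refine squeeze_zero (fun _ => norm_nonneg _) (fun j => ?_)
        (tendsto_pow_atTop_nhds_zero_of_lt_one hp0.le hpL)
      have hj : (j.factorial : L) ≠ 0 := Nat.cast_ne_zero.2 j.factorial_ne_zero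
      rw [norm_div, div_le_iff₀ (norm_pos_iff.2 hj)]
      have h1 := (hy (sub p x q)).2.1 j
      have h2 := norm_prime_pow_le_factorial (K := L) p hpL j
      calc _ ≤ ‖(p : L)‖ ^ (2 * j) := h1
        _ = ‖(p : L)‖ ^ j * ‖(p : L)‖ ^ j := by rw [two_mul, pow_add]
        _ ≤ _ := mul_le_mul_of_nonneg_left h2 (by positivity)
    · refine hinf.mono fun n hn => ?_
      have h1 : s n = 0 := by
        rw [hsn]
        exact eval_eq_zero_of_cl hq (hprim _) (hprim _) (hcln n) hn
      simp only [Set.mem_ofPred_eq, h1]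
      rfl
  have h1 : eval (dsc p x ((pt H)^[n] y)) q = 0 := by
    rw [← hsn]
    exact Subtype.ext (hsz n)
  exact eval_eq_zero_of_cl hq (hprim _) (hprim _) (hcln n).symm h1

end Pool.Agent.K1H69.MZ
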