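import Pool.Agent.K1H69.MZ.Def
import Pool.Agent.K1H69.MZ.Arc

set_option autoImplicit false

/-! The local closures are stable under an iterate of the automorphism. -/

namespace Pool.Agent.K1H69.MZ

open MvPolynomial Pool.Agent.H936R2 Pool.Agent.R847.Gap Topology

section

variable {K : Type} [Field K] {ι : Type}
variable {L : Type} [NormedField L] [IsUltrametricDist L] [CharZero L] {σ : K →+* L}

omit [CharZero L] in
/-- the vector `z` represents the point `y` -/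
def Pr (σ : K →+* L) (z : ι → unitBall L) (y : ι → K) : Prop :=
  ∃ c : L, c ≠ 0 ∧ ∀ i, (z i : L) = c * σ (y i)

lemma eval_pr {z : ι → unitBall L} {y : ι → K} {c : L} (hz : ∀ i, (z i : L) = c * σ (y i))
    {P : MvPolynomial ι K} {d : ℕ} (hP : P.IsHomogeneous d) {c' : L}
    {q : MvPolynomial ι (unitBall L)} (hq : map (unitBall L).subtype q = C c' * map σ P) :
    ((eval z q : unitBall L) : L) = c' * (c ^ d * σ (eval y P)) := by
  have h1 : σ (eval y P) = eval (fun i => σ (y i)) (map σ P) := by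
    rw [eval_map]
    have h := eval₂_comp_left σ (RingHom.id _) y P
    rw [RingHom.comp_id] at h
    exact h
  have h2 : (fun i => (z i : L)) = fun i => c * σ (y i) := funext hz
  rw [eval_coe, hq, map_mul, eval_C, h2, eval_hom (hP.map σ), h1]

lemma zero_iff_pr {z : ι → unitBall L} {y : ι → K} (hz : Pr σ z y)
    {P : MvPolynomial ι K} {d : ℕ} (hP : P.IsHomogeneous d) {c' : L} (hc' : c' ≠ 0)
    {q : MvPolynomial ι (unitBall L)} (hq : map (unitBall L).subtype q = C c' * map σ P) :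
    eval z q = 0 ↔ eval y P = 0 := by
  obtain ⟨c, hc, hz⟩ := hz
  have h1 := eval_pr hz hP hq
  constructor
  · intro h
    rw [h] at h1
    have h2 : c' * (c ^ d * σ (eval y P)) = 0 := by rw [← h1]; rfl
    rcases mul_eq_zero.1 h2 with h3 | h3
    · exact absurd h3 hc'
    · rcases mul_eq_zero.1 h3 with h4 | h4
      · exact absurd h4 (pow_ne_zero _ hc)
      · exact (map_eq_zero σ).1 h4
  · intro h
    apply Subtype.ext
    rw [h1, h, map_zero, mul_zero, mul_zero]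
    rfl

lemma mem_ZS_of_pr {S : Set (MvPolynomial ι K)} (hS : ∀ s ∈ S, ∃ d : ℕ, s.IsHomogeneous d)
    {z : ι → unitBall L} {y : ι → K} (hz : Pr σ z y) (hy : ∀ s ∈ S, eval y s = 0) :
    z ∈ ZS (QS σ S) := by
  rintro q ⟨c', s, hs, hq⟩
  obtain ⟨d, hd⟩ := hS s hs
  obtain ⟨c, hc, hz⟩ := hz
  have h1 := eval_pr hz hd hq
  apply Subtype.ext
  rw [h1, hy s hs, map_zero, mul_zero, mul_zero]
  rfl

omit [CharZero L] in
lemma Pr.ne_zero {z : ι → unitBall L} {y : ι → K} (hz : Pr σ z y) (hp : Prim z) : y ≠ 0 := by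
  rintro rfl
  obtain ⟨c, -, hz⟩ := hz
  obtain ⟨i, hi⟩ := hp
  have h1 := hz i
  rw [Pi.zero_apply, map_zero, mul_zero] at h1
  unfold nm at hi
  rw [h1, norm_zero] at hi
  exact zero_ne_one hi

omit [CharZero L] in
lemma Pr.of_cl {z w : ι → unitBall L} {y : ι → K} (hz : Pr σ z y) (hzp : Prim z) (hw : Prim w)
    (h : Cl 0 z w) : Pr σ w y := by
  obtain ⟨c, hc, rfl⟩ := h.eq_smul hzp hw
  obtain ⟨c', hc', hz⟩ := hz
  refine ⟨c * c', mul_ne_zero ?_ hc', fun i => ?_⟩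
  · intro h0
    unfold nm at hc
    rw [h0, norm_zero] at hc
    exact zero_ne_one hc
  · push_cast
    rw [hz i, mul_assoc]

variable {S : Set (MvPolynomial ι K)}

lemma val_pr {m : ℕ} {f : Fin m → ι → MvPolynomial ι K} {d : Fin m → ℕ}
    (hd : ∀ a i, (f a i).IsHomogeneous (d a)) {F : Sys L ι (Fin m)} (hF : Lifts σ f F)
    {z : ι → unitBall L} {y : ι → K} (hz : Pr σ z y) (a : Fin m) :
    Pr σ (pt (F.f a) z) (Val (RingHom.id K) (f a) y) := by
  obtain ⟨c, hc, hz⟩ := hz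
  refine ⟨c ^ d a, pow_ne_zero _ hc, fun i => ?_⟩
  have h1 := eval_pr hz (hd a i) (c' := 1) (q := F.f a i) (by rw [hF a i, C_1, one_mul])
  rw [one_mul] at h1
  exact h1

lemma img_of_rp {φ : Aut S} {F : Sys L ι (Fin φ.m)} (hF : Lifts σ φ.f F)
    {z : ι → unitBall L} (hzp : Prim z)
    {y : ι → K} (hzy : Pr σ z y) {k : ℕ} : ∀ {w' : ι → unitBall L}, Rp F k z w' →
      ∃ w, Img φ k y w ∧ Pr σ w' w := by
  induction k with
  | zero =>
    intro w' hw'
    exact ⟨y, rfl, hzy.of_cl hzp hw'.1 hw'.2⟩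
  | succ k ih =>
    rintro w' ⟨v', hv', a, ha, hw, hc⟩
    obtain ⟨v, hv, hpv⟩ := ih hv'
    have h1 := val_pr φ.f_hom hF hpv a
    exact ⟨_, ⟨v, hv, a, rfl, h1.ne_zero ha⟩, h1.of_cl ha hw hc⟩

lemma rp_of_img {φ : Aut S} {F G : Sys L ι (Fin φ.m)} (hF : Lifts σ φ.f F)
    (h : Good (QS σ S) F G) {z : ι → unitBall L} (hz : z ∈ ZS (QS σ S)) (hzp : Prim z)
    {y : ι → K} (hy0 : y ≠ 0) (hyS : ∀ s ∈ S, eval y s = 0) (hzy : Pr σ z y) {k : ℕ} :
    ∀ {w : ι → K}, Img φ k y w → ∃ w', Prim w' ∧ Rp F k z w' ∧ Pr σ w' w := by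
  induction k with
  | zero =>
    rintro w rfl
    exact ⟨z, hzp, ⟨hzp, Cl.self le_rfl z⟩, hzy⟩
  | succ k ih =>
    rintro w ⟨v, hv, a, rfl, hw0⟩
    obtain ⟨v', hvp, hv', hpv⟩ := ih hv
    obtain ⟨h1, h2⟩ := Rp.mem h hz hzp hv'
    obtain ⟨a', ha'⟩ := h.ex v' h1 h2
    obtain ⟨h3, h4⟩ := hv.mem hy0 hyS
    have h5 := val_pr φ.f_hom hF hpv a'
    obtain ⟨c, hc, h6⟩ := Half.uniq φ.left φ.right φ.f_hom (RingHom.id K) h3 h4 hw0
      (h5.ne_zero ha')
    refine ⟨_, ha', ⟨v', hv', a', ha', ha', Cl.self le_rfl _⟩, ?_⟩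
    obtain ⟨c1, hc1, h7⟩ := h5
    refine ⟨c1 * σ c, mul_ne_zero hc1 ((map_ne_zero σ).2 hc), fun i => ?_⟩
    rw [h7, h6, Pi.smul_apply, smul_eq_mul, map_mul, mul_assoc]

end

section

variable {K : Type} [Field K] {ι : Type} [Fintype ι] [DecidableEq ι]
variable {L : Type} [NormedField L] [IsUltrametricDist L] [CharZero L] [ProperSpace L]
variable {σ : K →+* L} {S : Set (MvPolynomial ι K)}
variable (p : ℕ) [hp : Fact p.Prime] (hpL : ‖(p : L)‖ < 1)

/-- the polydisc of radius `‖p‖ ^ r` -/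
def PD (r : ℕ) (x : ι → unitBall L) : Set (ι → L) := {z | ∀ i, ‖z i - (x i : L)‖ ≤ ‖(p : L)‖ ^ r}

include hp hpL in
theorem core1 (hSh : ∀ s ∈ S, ∃ d : ℕ, s.IsHomogeneous d) (φ : Aut S)
    {F G : Sys L ι (Fin φ.m)} (hF : Lifts σ φ.f F) (h : Good (QS σ S) F G)
    {x : ι → unitBall L} (hxp : Prim x) {k₀ : ℕ} {H : ι → MvPolynomial ι (unitBall L)}
    (hW : Window p (QS σ S) F x k₀ H) {u₀ : ι → unitBall L} {r : ℕ} (hr : 2 ≤ r)
    {f₀ g : MvPolynomial ι K} {d e : ℕ} (hf₀ : f₀.IsHomogeneous d) (hg : g.IsHomogeneous e)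
    (hfg : f₀ * g ∈ VI (Nb S σ (PD p r (dsc p x u₀))))
    {y : ι → K} (hy : y ∈ Nb S σ (PD p r (dsc p x u₀)))
    (hy0 : eval y f₀ ≠ 0) {k : ℕ} (hk : k₀ ∣ k) {w : ι → K} (hw : Img φ k y w) :
    eval w g = 0 := by
  have hp0 := norm_p_pos' (L := L) p
  have hδ0 : 0 ≤ ‖(p : L)‖ ^ r := by positivity
  have hδ : ‖(p : L)‖ ^ r < 1 := pow_lt_one₀ hp0.le hpL (by omega)
  have hprim : ∀ v : ι → unitBall L, Prim (dsc p x v) := fun v => prim_add p hpL hxp
  obtain ⟨hyne, hyS, c, hc, hcU⟩ := hy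
  have hz1 : ∀ i, ‖c * σ (y i)‖ ≤ 1 := by
    intro i
    have h1 := hcU i
    have h2 : c * σ (y i) = (c * σ (y i) - (dsc p x u₀ i : L)) + (dsc p x u₀ i : L) := by ring
    rw [h2]
    exact (IsUltrametricDist.norm_add_le_max _ _).trans
      (max_le (h1.trans hδ.le) (unitBall_norm_le _))
  set z : ι → unitBall L := fun i => ⟨c * σ (y i), hz1 i⟩ with hzdef
  have hzx : ∀ i, nm (z i - dsc p x u₀ i) ≤ ‖(p : L)‖ ^ r := hcU
  obtain ⟨u, hu⟩ : ∃ u, z = dsc p x u := by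
    have h1 : ∀ i, ∃ v : unitBall L, z i - dsc p x u₀ i = (p : unitBall L) ^ 2 * v := fun i =>
      exists_div' p _ 2 ((hzx i).trans (pow_le_pow_of_le_one hp0.le hpL.le hr))
    choose v hv using h1
    refine ⟨fun i => u₀ i + v i, funext fun i => ?_⟩
    have h2 := hv i
    simp only [dsc] at h2 ⊢
    linear_combination h2
  have hzy : Pr σ z y := ⟨c, hc, fun i => rfl⟩
  have hzZ : z ∈ ZS (QS σ S) := mem_ZS_of_pr hSh hzy hyS
  rw [hu] at hzx hzy hzZ
  -- the scaled forms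
  obtain ⟨cf, qf, hcf, hqf⟩ := exists_scale p hpL (map σ f₀)
  obtain ⟨cg, qg, hcg, hqg⟩ := exists_scale p hpL (map σ g)
  have hinj : Function.Injective (unitBall L).subtype := Subtype.coe_injective
  have hqfh : qf.IsHomogeneous d := by
    refine IsHomogeneous.of_map hinj ?_
    rw [hqf]
    have := (isHomogeneous_C ι cf).mul (hf₀.map σ)
    rwa [zero_add] at this
  have hqgh : qg.IsHomogeneous e := by
    refine IsHomogeneous.of_map hinj ?_
    rw [hqg]
    have := (isHomogeneous_C ι cg).mul (hg.map σ)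
    rwa [zero_add] at this
  -- the returns
  have hret : ∀ m, eval (dsc p x ((pt H)^[p ^ r * m] u)) qf = 0 ∨
      eval (dsc p x ((pt H)^[p ^ r * m] u)) qg = 0 := by
    intro m
    have h1 := near_return p hpL h hxp hW hzZ r (by omega) m
    obtain ⟨-, h2⟩ := hW.orb u hzZ (p ^ r * m)
    obtain ⟨ym, h3, h4⟩ := img_of_rp hF (hprim _) hzy h2
    obtain ⟨h5, h6⟩ := h3.mem hyne hyS
    have h7 : Cl (‖(p : L)‖ ^ r) (dsc p x u₀) (dsc p x u) :=
      Cl.of_near (c := 1) fun j => by rw [one_mul]; exact hzx j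
    have h8 := h7.trans hδ (hprim _) (hprim _) (hprim _) h1
    obtain ⟨c1, hc1, h9⟩ := h8.near hδ (hprim _) (hprim _)
    obtain ⟨c2, hc2⟩ := (isUnit_iff c1).2 hc1
    have hcc : ((c2⁻¹ : (unitBall L)ˣ) : unitBall L) * c1 = 1 := by
      rw [← hc2]; exact Units.inv_mul c2
    have hcn : nm ((c2⁻¹ : (unitBall L)ˣ) : unitBall L) = 1 :=
      (isUnit_iff _).1 (Units.isUnit c2⁻¹)
    have hym : ym ∈ Nb S σ (PD p r (dsc p x u₀)) := by
      obtain ⟨c3, hc3, h10⟩ := h4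
      refine ⟨h5, h6, (((c2⁻¹ : (unitBall L)ˣ) : unitBall L) : L) * c3, mul_ne_zero ?_ hc3, ?_⟩
      · intro h0
        unfold nm at hcn
        rw [h0, norm_zero] at hcn
        exact zero_ne_one hcn
      · intro i
        have h11 : nm (((c2⁻¹ : (unitBall L)ˣ) : unitBall L) *
            (dsc p x ((pt H)^[p ^ r * m] u) i - c1 * dsc p x u₀ i)) ≤ ‖(p : L)‖ ^ r :=
          nm_mul_le_right _ (h9 i)
        have h12 : ((c2⁻¹ : (unitBall L)ˣ) : unitBall L) *
            (dsc p x ((pt H)^[p ^ r * m] u) i - c1 * dsc p x u₀ i) =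
            ((c2⁻¹ : (unitBall L)ˣ) : unitBall L) * dsc p x ((pt H)^[p ^ r * m] u) i -
              dsc p x u₀ i := by
          linear_combination (- dsc p x u₀ i) * hcc
        rw [h12] at h11
        unfold nm at h11
        push_cast at h11
        rw [h10 i, ← mul_assoc] at h11
        exact h11
    have h13 := hfg ym hym 1
    rw [one_smul, map_mul] at h13
    rcases mul_eq_zero.1 h13 with h14 | h14
    · left
      exact (zero_iff_pr h4 hf₀ hcf hqf).2 h14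
    · right
      exact (zero_iff_pr h4 hg hcg hqg).2 h14
  have hinf : ({n | eval (dsc p x ((pt H)^[n] u)) qf = 0} ∪
      {n | eval (dsc p x ((pt H)^[n] u)) qg = 0}).Infinite := by
    have h1 : (Set.range fun m : ℕ => p ^ r * m).Infinite := by
      apply Set.infinite_range_of_injective
      intro a b hab
      exact Nat.eq_of_mul_eq_mul_left (pow_pos hp.out.pos r) hab
    refine h1.mono ?_
    rintro _ ⟨m, rfl⟩
    exact hret m
  rcases Set.infinite_union.1 hinf with h1 | h1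
  · exfalso
    have h2 := all_zero p hpL h hxp hW hzZ hqfh h1 0
    exact hy0 ((zero_iff_pr hzy hf₀ hcf hqf).1 h2)
  · obtain ⟨l, rfl⟩ := hk
    have h2 := all_zero p hpL h hxp hW hzZ hqgh h1 l
    obtain ⟨w', hw'p, hw', hw'w⟩ := rp_of_img hF h hzZ (hprim _) hyne hyS hzy hw
    have h3 := Rp.contr h le_rfl zero_lt_one hzZ (hprim _) hzZ (hprim _) (Cl.self le_rfl _)
      (hW.orb u hzZ l).2 hw'
    have h4 := eval_eq_zero_of_cl hqgh (hprim _) hw'p h3 h2
    exact (zero_iff_pr hw'w hg hcg hqg).1 h4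

end

end Pool.Agent.K1H69.MZ
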