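import Pool.Agent.K1H69.MZ.Stm

set_option autoImplicit false

/-! The images of the points under the iterates, over the number field and over the integers of
the completion; the ideals of the local closures. -/

namespace Pool.Agent.K1H69.MZ

open MvPolynomial Pool.Agent.H936R2 Pool.Agent.R847.Gap Topology

section

variable {K : Type} [Field K] {ι : Type}

/-- the nonzero vectors over `K` at which all the elements of `P` vanish -/
def Zset (P : Set (MvPolynomial ι K)) : Set (ι → K) := {z | z ≠ 0 ∧ ∀ f ∈ P, eval z f = 0}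

/-- `w` represents the image of the point `z` under the `k`-th iterate of `φ`. -/
def Img {S : Set (MvPolynomial ι K)} (φ : Aut S) : ℕ → (ι → K) → (ι → K) → Prop
  | 0, z, w => w = z
  | k + 1, z, w => ∃ v, Img φ k z v ∧ ∃ a, w = Val (RingHom.id K) (φ.f a) v ∧ w ≠ 0

/-- the `K`-points of `V(S)` near `x` -/
def Nb {L : Type} [NormedField L] (S : Set (MvPolynomial ι K)) (σ : K →+* L)
    (U : Set (ι → L)) : Set (ι → K) :=
  {y | y ≠ 0 ∧ (∀ g ∈ S, eval y g = 0) ∧ ∃ c : L, c ≠ 0 ∧ (fun i => c * σ (y i)) ∈ U}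

lemma VI_anti {Y Z : Set (ι → K)} (h : Y ⊆ Z) : VI Z ≤ VI Y := fun _ hf y hy t => hf y (h hy) t

lemma mem_VI {Y : Set (ι → K)} {f : MvPolynomial ι K} :
    f ∈ VI Y ↔ ∀ y ∈ Y, ∀ t : K, eval (t • y) f = 0 := Iff.rfl

lemma Nb_mono {L : Type} [NormedField L] (S : Set (MvPolynomial ι K)) (σ : K →+* L)
    {U V : Set (ι → L)} (h : U ⊆ V) : Nb S σ U ⊆ Nb S σ V :=
  fun _ hy => ⟨hy.1, hy.2.1, hy.2.2.imp fun _ hc => ⟨hc.1, h hc.2⟩⟩

/-- the ideal of the local closure at `x` is attained on a neighbourhood -/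
lemma exists_nhd [Finite ι] {L : Type} [NormedField L] (S : Set (MvPolynomial ι K)) (σ : K →+* L)
    (x : ι → L) : ∃ U₀ ∈ 𝓝 x, ∀ U ∈ 𝓝 x, VI (Nb S σ U) ≤ VI (Nb S σ U₀) := by
  have hne : {I : Ideal (MvPolynomial ι K) | ∃ U ∈ 𝓝 x, I = VI (Nb S σ U)}.Nonempty :=
    ⟨_, Set.univ, Filter.univ_mem, rfl⟩
  obtain ⟨I, ⟨U₀, hU₀, rfl⟩, hmax⟩ := (set_has_maximal_iff_noetherian.2
    (inferInstance : IsNoetherianRing (MvPolynomial ι K))) _ hne
  refine ⟨U₀, hU₀, fun U hU f hf => ?_⟩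
  have h1 : VI (Nb S σ U₀) ≤ VI (Nb S σ (U ∩ U₀)) :=
    VI_anti (Nb_mono S σ Set.inter_subset_right)
  have h2 := hmax _ ⟨U ∩ U₀, Filter.inter_mem hU hU₀, rfl⟩
  have h3 : VI (Nb S σ U₀) = VI (Nb S σ (U ∩ U₀)) := by
    by_contra hne
    exact h2 (lt_of_le_of_ne h1 hne)
  rw [h3]
  exact VI_anti (Nb_mono S σ Set.inter_subset_left) hf

lemma Val_smul {F : Type} [Field F] (τ : K →+* F) {f : ι → MvPolynomial ι K} {d : ℕ}
    (hf : ∀ i, (f i).IsHomogeneous d) (c : F) (z : ι → F) :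
    Val τ f (c • z) = c ^ d • Val τ f z := by
  funext i
  have h1 := eval_hom ((hf i).map τ) c z
  simp only [Val, Pi.smul_apply, smul_eq_mul]
  rw [← eval_map, ← eval_map, ← h1]
  rfl

lemma Half.uniq {S : Set (MvPolynomial ι K)} {m : ℕ} {f g : Fin m → ι → MvPolynomial ι K}
    (hl : Half S f g) (hr : Half S g f) {d : Fin m → ℕ} (hd : ∀ a i, (f a i).IsHomogeneous (d a))
    {F : Type} [Field F] (τ : K →+* F) {z : ι → F} (hz : z ≠ 0)
    (hS : ∀ s ∈ S, eval₂ τ z s = 0) {a a' : Fin m} (ha : Val τ (f a) z ≠ 0)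
    (ha' : Val τ (f a') z ≠ 0) : ∃ c : F, c ≠ 0 ∧ Val τ (f a') z = c • Val τ (f a) z := by
  obtain ⟨h1, h2⟩ := (hl F τ z hz hS).2 a ha
  obtain ⟨⟨b, hb⟩, h3⟩ := hr F τ _ ha h1
  obtain ⟨c, hc⟩ := h2 b hb
  have hc0 : c ≠ 0 := by
    rintro rfl
    rw [hc, zero_smul] at hb
    exact hb rfl
  obtain ⟨-, h4⟩ := h3 b hb
  have h5 : Val τ (f a') (Val τ (g b) (Val τ (f a) z)) = c ^ d a' • Val τ (f a') z := by
    rw [hc, Val_smul τ (hd a')]
  have h6 : c ^ d a' ≠ 0 := pow_ne_zero _ hc0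
  obtain ⟨c', hc'⟩ := h4 a' (by rw [h5]; exact smul_ne_zero h6 ha')
  rw [h5] at hc'
  have h7 : Val τ (f a') z = ((c ^ d a')⁻¹ * c') • Val τ (f a) z := by
    rw [mul_smul, ← hc', smul_smul, inv_mul_cancel₀ h6, one_smul]
  refine ⟨_, ?_, h7⟩
  intro h0
  rw [h0, zero_smul] at h7
  exact ha' h7

lemma Img.mem {S : Set (MvPolynomial ι K)} {φ : Aut S} {k : ℕ} :
    ∀ {z w : ι → K}, z ≠ 0 → (∀ s ∈ S, eval z s = 0) → Img φ k z w →
      w ≠ 0 ∧ ∀ s ∈ S, eval w s = 0 := by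
  induction k with
  | zero => rintro z w hz hs rfl; exact ⟨hz, hs⟩
  | succ k ih =>
    rintro z w hz hs ⟨v, hv, a, rfl, hw⟩
    obtain ⟨h1, h2⟩ := ih hz hs hv
    refine ⟨hw, ((φ.left K (RingHom.id K) v h1 ?_).2 a hw).1⟩
    exact h2

end

end Pool.Agent.K1H69.MZ
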