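import Pool.Agent.K1H69.MZ.Loc

set_option autoImplicit false

/-! Automorphisms with good reduction: isometry, periodicity of the residue classes, orbits. -/

namespace Pool.Agent.K1H69.MZ

open MvPolynomial Pool.Agent.H936R2 Pool.Agent.R847.Gap

variable {ι : Type} {L : Type} [NormedField L] [IsUltrametricDist L]

lemma Cl.eq_smul {z w : ι → unitBall L} (hz : Prim z) (hw : Prim w) (h : Cl 0 z w) :
    ∃ c : unitBall L, nm c = 1 ∧ w = fun i => c * z i := by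
  obtain ⟨c, hc, h1⟩ := h.near zero_lt_one hz hw
  refine ⟨c, hc, funext fun i => ?_⟩
  have h2 := le_antisymm (h1 i) (nm_nonneg _)
  exact sub_eq_zero.1 (nm_eq_zero.1 h2)

/-- a family of tuples of forms -/
structure Sys (L ι A : Type) [NormedField L] [IsUltrametricDist L] where
  f : A → ι → MvPolynomial ι (unitBall L)
  d : A → ℕ
  hom : ∀ a i, (f a i).IsHomogeneous (d a)

/-- the zero set -/
def ZS (Q : Set (MvPolynomial ι (unitBall L))) : Set (ι → unitBall L) :=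
  {z | ∀ q ∈ Q, eval z q = 0}

/-- `F` and `G` are inverse to each other with good reduction -/
structure Good {A B : Type} (Q : Set (MvPolynomial ι (unitBall L))) (F : Sys L ι A)
    (G : Sys L ι B) : Prop where
  ex : ∀ z ∈ ZS Q, Prim z → ∃ a, Prim (pt (F.f a) z)
  mem : ∀ z ∈ ZS Q, Prim z → ∀ a, Prim (pt (F.f a) z) → pt (F.f a) z ∈ ZS Q
  uniq : ∀ z ∈ ZS Q, Prim z → ∀ a a', Prim (pt (F.f a) z) → Prim (pt (F.f a') z) →
    Cl 0 (pt (F.f a) z) (pt (F.f a') z)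
  exG : ∀ z ∈ ZS Q, Prim z → ∃ b, Prim (pt (G.f b) z)
  inv : ∀ z ∈ ZS Q, Prim z → ∀ a b, Prim (pt (F.f a) z) → Prim (pt (G.f b) (pt (F.f a) z)) →
    Cl 0 z (pt (G.f b) (pt (F.f a) z))
  smul : ∀ z ∈ ZS Q, ∀ c, nm c = 1 → (fun i => c * z i) ∈ ZS Q

/-- `w` represents the image of `z` under the `n`-th iterate -/
def Rp {A : Type} (F : Sys L ι A) : ℕ → (ι → unitBall L) → (ι → unitBall L) → Prop
  | 0, z, w => Prim w ∧ Cl 0 z w
  | n + 1, z, w => ∃ v, Rp F n z v ∧ ∃ a, Prim (pt (F.f a) v) ∧ Prim w ∧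
      Cl 0 (pt (F.f a) v) w

section

variable {A B : Type} {Q : Set (MvPolynomial ι (unitBall L))} {F : Sys L ι A} {G : Sys L ι B}

lemma mem_of_cl (h : Good Q F G) {z w : ι → unitBall L} (hz : z ∈ ZS Q) (hzp : Prim z)
    (hw : Prim w) (hc : Cl 0 z w) : w ∈ ZS Q := by
  obtain ⟨c, hc1, rfl⟩ := hc.eq_smul hzp hw
  exact h.smul z hz c hc1

lemma Rp.mem (h : Good Q F G) {z : ι → unitBall L} (hz : z ∈ ZS Q) (hzp : Prim z) {n : ℕ} :
    ∀ {w : ι → unitBall L}, Rp F n z w → w ∈ ZS Q ∧ Prim w := by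
  induction n with
  | zero => intro w hw; exact ⟨mem_of_cl h hz hzp hw.1 hw.2, hw.1⟩
  | succ n ih =>
    rintro w ⟨v, hv, a, ha, hw, hc⟩
    obtain ⟨h1, h2⟩ := ih hv
    exact ⟨mem_of_cl h (h.mem v h1 h2 a ha) ha hw hc, hw⟩

lemma Rp.congr_right {z : ι → unitBall L} (hzp : Prim z) {n : ℕ} {v w : ι → unitBall L}
    (hv : Rp F n z v) (hvp : Prim v) (hw : Prim w) (hc : Cl 0 v w) : Rp F n z w := by
  cases n with
  | zero => exact ⟨hw, hv.2.trans zero_lt_one hzp hvp hw hc⟩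
  | succ n =>
    obtain ⟨u, hu, a, ha, _, hc'⟩ := hv
    exact ⟨u, hu, a, ha, hw, hc'.trans zero_lt_one ha hvp hw hc⟩

lemma Rp.add (h : Good Q F G) {z : ι → unitBall L} (hz : z ∈ ZS Q) (hzp : Prim z) (i j : ℕ) :
    ∀ {w : ι → unitBall L}, Rp F (i + j) z w ↔ ∃ v, Rp F i z v ∧ Rp F j v w := by
  induction j with
  | zero =>
    intro w
    constructor
    · intro hw
      exact ⟨w, hw, (Rp.mem h hz hzp hw).2, Cl.self le_rfl w⟩
    · rintro ⟨v, hv, hw⟩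
      exact hv.congr_right hzp (Rp.mem h hz hzp hv).2 hw.1 hw.2
  | succ j ih =>
    intro w
    constructor
    · rintro ⟨u, hu, a, ha⟩
      obtain ⟨v, hv, hu'⟩ := ih.1 hu
      exact ⟨v, hv, u, hu', a, ha⟩
    · rintro ⟨v, hv, u, hu', a, ha⟩
      exact ⟨u, ih.2 ⟨v, hv, hu'⟩, a, ha⟩

lemma Rp.exists (h : Good Q F G) {z : ι → unitBall L} (hz : z ∈ ZS Q) (hzp : Prim z) (n : ℕ) :
    ∃ w, Rp F n z w := by
  induction n with
  | zero => exact ⟨z, hzp, Cl.self le_rfl z⟩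
  | succ n ih =>
    obtain ⟨v, hv⟩ := ih
    obtain ⟨h1, h2⟩ := Rp.mem h hz hzp hv
    obtain ⟨a, ha⟩ := h.ex v h1 h2
    exact ⟨_, v, hv, a, ha, ha, Cl.self le_rfl _⟩

/-- forward contraction -/
lemma Rp.contr (h : Good Q F G) {δ : ℝ} (hδ0 : 0 ≤ δ) (hδ : δ < 1) {z z' : ι → unitBall L}
    (hz : z ∈ ZS Q) (hzp : Prim z) (hz' : z' ∈ ZS Q) (hzp' : Prim z') (hc : Cl δ z z') {n : ℕ} :
    ∀ {w w' : ι → unitBall L}, Rp F n z w → Rp F n z' w' → Cl δ w w' := by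
  induction n with
  | zero =>
    intro w w' hw hw'
    have h1 : Cl δ w z := (hw.2.mono hδ0).symm
    have h2 : Cl δ z' w' := hw'.2.mono hδ0
    exact (h1.trans hδ hw.1 hzp hzp' hc).trans hδ hw.1 hzp' hw'.1 h2
  | succ n ih =>
    rintro w w' ⟨v, hv, a, ha, hw, hcw⟩ ⟨v', hv', a', ha', hw', hcw'⟩
    have h1 := ih hv hv'
    obtain ⟨m1, m2⟩ := Rp.mem h hz hzp hv
    obtain ⟨m1', m2'⟩ := Rp.mem h hz' hzp' hv'
    obtain ⟨h2, h3⟩ := MZ.contr (F.hom a) hδ0 hδ m2 m2' h1 ha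
    have h4 : Cl δ (pt (F.f a) v') (pt (F.f a') v') :=
      (h.uniq v' m1' m2' a a' h2 ha').mono hδ0
    have h5 : Cl δ w (pt (F.f a) v) := (hcw.mono hδ0).symm
    have h6 : Cl δ (pt (F.f a') v') w' := hcw'.mono hδ0
    exact ((h5.trans hδ hw ha h2 h3).trans hδ hw h2 ha' h4).trans hδ hw ha' hw' h6

/-- backward contraction -/
lemma Rp.back (h : Good Q F G) {δ : ℝ} (hδ0 : 0 ≤ δ) (hδ : δ < 1) {z z' : ι → unitBall L}
    (hz : z ∈ ZS Q) (hzp : Prim z) (hz' : z' ∈ ZS Q) (hzp' : Prim z') {n : ℕ} :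
    ∀ {w w' : ι → unitBall L}, Rp F n z w → Rp F n z' w' → Cl δ w w' → Cl δ z z' := by
  induction n with
  | zero =>
    intro w w' hw hw' hc
    have h1 : Cl δ z w := hw.2.mono hδ0
    have h2 : Cl δ w' z' := (hw'.2.mono hδ0).symm
    exact (h1.trans hδ hzp hw.1 hw'.1 hc).trans hδ hzp hw'.1 hzp' h2
  | succ n ih =>
    rintro w w' ⟨v, hv, a, ha, hw, hcw⟩ ⟨v', hv', a', ha', hw', hcw'⟩ hc
    obtain ⟨m1, m2⟩ := Rp.mem h hz hzp hv
    obtain ⟨m1', m2'⟩ := Rp.mem h hz' hzp' hv'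
    have h1 : Cl δ (pt (F.f a) v) w := hcw.mono hδ0
    have h2 : Cl δ w' (pt (F.f a') v') := (hcw'.mono hδ0).symm
    have h3 : Cl δ (pt (F.f a) v) (pt (F.f a') v') :=
      (h1.trans hδ ha hw hw' hc).trans hδ ha hw' ha' h2
    obtain ⟨b, hb⟩ := h.exG _ (h.mem v m1 m2 a ha) ha
    obtain ⟨h4, h5⟩ := MZ.contr (G.hom b) hδ0 hδ ha ha' h3 hb
    have h6 : Cl δ v (pt (G.f b) (pt (F.f a) v)) := (h.inv v m1 m2 a b ha hb).mono hδ0
    have h7 : Cl δ (pt (G.f b) (pt (F.f a') v')) v' :=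
      ((h.inv v' m1' m2' a' b ha' h4).mono hδ0).symm
    exact ih hv hv' ((h6.trans hδ m2 hb h4 h5).trans hδ m2 h4 m2' h7)

/-- an iterate is given by one tuple of forms near a point -/
lemma chain (h : Good Q F G) {δ : ℝ} (hδ0 : 0 ≤ δ) (hδ : δ < 1) {x : ι → unitBall L}
    (hx : x ∈ ZS Q) (hxp : Prim x) (n : ℕ) :
    ∃ (Fn : ι → MvPolynomial ι (unitBall L)) (D : ℕ), (∀ i, (Fn i).IsHomogeneous D) ∧
      ∀ z ∈ ZS Q, Prim z → Cl δ x z → Prim (pt Fn z) ∧ Rp F n z (pt Fn z) := by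
  induction n with
  | zero =>
    refine ⟨fun i => X i, 1, fun i => isHomogeneous_X _ i, fun z hz hzp hc => ?_⟩
    have e : pt (fun i => (X i : MvPolynomial ι (unitBall L))) z = z := by
      funext i; simp [pt]
    rw [e]
    exact ⟨hzp, hzp, Cl.self le_rfl z⟩
  | succ n ih =>
    obtain ⟨Fn, D, hD, hF⟩ := ih
    obtain ⟨h1, h2⟩ := hF x hx hxp (Cl.self hδ0 x)
    have h3 := (Rp.mem h hx hxp h2).1
    obtain ⟨a, ha⟩ := h.ex _ h3 h1
    have e : ∀ z, pt (fun i => aeval Fn (F.f a i)) z = pt (F.f a) (pt Fn z) := by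
      intro z
      funext i
      exact eval_aeval_poly Fn z (F.f a i)
    refine ⟨fun i => aeval Fn (F.f a i), D * F.d a, fun i => (F.hom a i).aeval Fn hD,
      fun z hz hzp hc => ?_⟩
    obtain ⟨h4, h5⟩ := hF z hz hzp hc
    have h6 : Cl δ (pt Fn x) (pt Fn z) := Rp.contr h hδ0 hδ hx hxp hz hzp hc h2 h5
    obtain ⟨h7, -⟩ := MZ.contr (F.hom a) hδ0 hδ h1 h4 h6 ha
    rw [e]
    exact ⟨h7, _, h5, a, h7, h7, Cl.self le_rfl _⟩

end

section

variable {A B : Type} {Q : Set (MvPolynomial ι (unitBall L))} {F : Sys L ι A} {G : Sys L ι B}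
variable [Fintype ι] [DecidableEq ι] [ProperSpace L] [CharZero L]
variable (p : ℕ) [hp : Fact p.Prime] (hpL : ‖(p : L)‖ < 1)

omit [Fintype ι] [DecidableEq ι] [ProperSpace L] [CharZero L] hp in
lemma nm_natCast (n : ℕ) : nm ((n : ℕ) : unitBall L) = ‖(n : L)‖ := by
  unfold nm; push_cast; rfl

omit [Fintype ι] [DecidableEq ι] [ProperSpace L] [CharZero L] hp in
lemma nm_p_sq (x : unitBall L) : nm ((p : unitBall L) ^ 2 * x) ≤ ‖(p : L)‖ ^ 2 := by
  rw [nm_mul, nm_pow, nm_natCast]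
  exact mul_le_of_le_one_right (by positivity) (nm_le_one _)

include hp hpL in
omit [IsUltrametricDist L] [ProperSpace L] [Fintype ι] [DecidableEq ι] in
lemma sq_lt : ‖(p : L)‖ ^ 2 < 1 := by
  have := norm_p_pos' (L := L) p
  nlinarith

include hp hpL in
omit [ProperSpace L] [Fintype ι] [DecidableEq ι] in
lemma prim_add {x u : ι → unitBall L} (hx : Prim x) :
    Prim (fun i => x i + (p : unitBall L) ^ 2 * u i) := by
  refine Prim.of_near (sq_lt p hpL) nm_one hx fun j => ?_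
  have e : x j + (p : unitBall L) ^ 2 * u j - 1 * x j = (p : unitBall L) ^ 2 * u j := by ring
  rw [e]
  exact nm_p_sq p _

omit [ProperSpace L] [Fintype ι] [DecidableEq ι] [CharZero L] hp in
lemma cl_add {x u : ι → unitBall L} :
    Cl (‖(p : L)‖ ^ 2) x (fun i => x i + (p : unitBall L) ^ 2 * u i) := by
  refine Cl.of_near (c := 1) fun j => ?_
  have e : x j + (p : unitBall L) ^ 2 * u j - 1 * x j = (p : unitBall L) ^ 2 * u j := by ring
  rw [e]
  exact nm_p_sq p _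

include hp hpL in
omit [DecidableEq ι] in
/-- pure periodicity of the residue classes -/
lemma recur (h : Good Q F G) {x : ι → unitBall L} (hx : x ∈ ZS Q) (hxp : Prim x) :
    ∃ (k : ℕ) (K : ι → MvPolynomial ι (unitBall L)) (w : ι → unitBall L), 0 < k ∧
      (∀ i, pt K x i = x i + (p : unitBall L) ^ 2 * w i) ∧
      ∀ z ∈ ZS Q, Prim z → Cl (‖(p : L)‖ ^ 2) x z → Prim (pt K z) ∧ Rp F k z (pt K z) := by
  have hδ0 : 0 ≤ ‖(p : L)‖ ^ 2 := by positivity
  have hδ := sq_lt (L := L) p hpL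
  choose Fn D hD hF using fun n => chain h hδ0 hδ hx hxp n
  obtain ⟨n, m, hnm, hcl⟩ := compact_pair' (fun n => pt (Fn n) x) (‖(p : L)‖ ^ 2)
    (by have := norm_p_pos' (L := L) p; positivity)
  obtain ⟨k, rfl⟩ : ∃ k, m = k + n := ⟨m - n, by omega⟩
  have hk : 0 < k := by omega
  obtain ⟨p1, r1⟩ := hF n x hx hxp (Cl.self hδ0 x)
  obtain ⟨p2, r2⟩ := hF (k + n) x hx hxp (Cl.self hδ0 x)
  obtain ⟨p3, r3⟩ := hF k x hx hxp (Cl.self hδ0 x)
  obtain ⟨v, hv, hv'⟩ := (Rp.add h hx hxp k n).1 r2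
  obtain ⟨m1, m2⟩ := Rp.mem h hx hxp hv
  have h1 : Cl (‖(p : L)‖ ^ 2) (pt (Fn n) x) (pt (Fn (k + n)) x) := by
    refine Cl.of_near (c := 1) fun j => ?_
    have h2 := (hcl j).le
    rw [one_mul]
    exact h2
  have h2 : Cl (‖(p : L)‖ ^ 2) x v := Rp.back h hδ0 hδ hx hxp m1 m2 r1 hv' h1
  have h3 : Cl (‖(p : L)‖ ^ 2) v (pt (Fn k) x) :=
    Rp.contr h hδ0 hδ hx hxp hx hxp (Cl.self hδ0 x) hv r3
  have h4 : Cl (‖(p : L)‖ ^ 2) x (pt (Fn k) x) := h2.trans hδ hxp m2 p3 h3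
  obtain ⟨c, hc, h5⟩ := h4.near hδ hxp p3
  obtain ⟨c', hc'⟩ := (isUnit_iff c).2 hc
  have hcc : ((c'⁻¹ : (unitBall L)ˣ) : unitBall L) * c = 1 := by rw [← hc']; exact Units.inv_mul c'
  have hcn : nm ((c'⁻¹ : (unitBall L)ˣ) : unitBall L) = 1 := (isUnit_iff _).1 (Units.isUnit c'⁻¹)
  have hz : ∀ j, ∃ y : unitBall L, pt (Fn k) x j - c * x j = (p : unitBall L) ^ 2 * y := fun j =>
    exists_div' p _ 2 (h5 j)
  choose y hy using hz
  have e : ∀ z, pt (fun i => C ((c'⁻¹ : (unitBall L)ˣ) : unitBall L) * Fn k i) z =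
      fun i => ((c'⁻¹ : (unitBall L)ˣ) : unitBall L) * pt (Fn k) z i := by
    intro z
    funext i
    simp [pt]
  refine ⟨k, fun i => C ((c'⁻¹ : (unitBall L)ˣ) : unitBall L) * Fn k i,
    fun i => ((c'⁻¹ : (unitBall L)ˣ) : unitBall L) * y i, hk, fun i => ?_, fun z hz hzp hcz => ?_⟩
  · rw [e]
    change ((c'⁻¹ : (unitBall L)ˣ) : unitBall L) * pt (Fn k) x i = _
    linear_combination ((c'⁻¹ : (unitBall L)ˣ) : unitBall L) * hy i + x i * hcc
  · rw [e]
    obtain ⟨q1, q2⟩ := hF k z hz hzp hcz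
    refine ⟨q1.smul hcn, q2.congr_right hzp q1 (q1.smul hcn) ?_⟩
    exact (Cl.self le_rfl _).smul_right

/-- the points of the disc -/
def dsc (x u : ι → unitBall L) : ι → unitBall L := fun i => x i + (p : unitBall L) ^ 2 * u i

include hp hpL in
/-- **The window at a point.** -/
theorem win (h : Good Q F G) {x : ι → unitBall L} (hx : x ∈ ZS Q) (hxp : Prim x) :
    ∃ (k : ℕ) (H : ι → MvPolynomial ι (unitBall L)), 0 < k ∧
      IdemMod ((p : unitBall L) ^ 2) H ∧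
      ∀ u, dsc p x u ∈ ZS Q → ∀ n, dsc p x ((pt H)^[n] u) ∈ ZS Q ∧
        Rp F (k * n) (dsc p x u) (dsc p x ((pt H)^[n] u)) := by
  have hδ0 : 0 ≤ ‖(p : L)‖ ^ 2 := by positivity
  have hδ := sq_lt (L := L) p hpL
  obtain ⟨k, K, w, hk, hw, hK⟩ := recur p hpL h hx hxp
  obtain ⟨e, H, he, hH, hI⟩ := window p K x w hw
  -- the iterates of `K`
  have hit : ∀ u, dsc p x u ∈ ZS Q → ∀ m, ∃ u', (pt K)^[m] (dsc p x u) = dsc p x u' ∧
      dsc p x u' ∈ ZS Q ∧ Rp F (k * m) (dsc p x u) (dsc p x u') := by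
    intro u hu m
    induction m with
    | zero => exact ⟨u, rfl, hu, prim_add p hpL hxp, Cl.self le_rfl _⟩
    | succ m ih =>
      obtain ⟨u', h1, h2, h3⟩ := ih
      have hp' : Prim (dsc p x u') := prim_add p hpL hxp
      obtain ⟨h4, h5⟩ := hK _ h2 hp' (cl_add p)
      have h6 : ∀ i, ∃ y, pt K (dsc p x u') i - x i = (p : unitBall L) ^ 2 * y := by
        intro i
        apply exists_div' p _ 2
        have h7 : nm (pt K (dsc p x u') i - pt K x i) ≤ ‖(p : L)‖ ^ 2 := by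
          apply lip hδ0
          intro j
          have e1 : dsc p x u' j - x j = (p : unitBall L) ^ 2 * u' j := by
            simp only [dsc]; ring
          rw [e1]; exact nm_p_sq p _
        have e2 : pt K (dsc p x u') i - x i = (pt K (dsc p x u') i - pt K x i) +
            (p : unitBall L) ^ 2 * w i := by
          rw [hw i]; ring
        rw [e2]
        exact nm_add_le h7 (nm_p_sq p _)
      choose y hy using h6
      have e3 : pt K (dsc p x u') = dsc p x y := by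
        funext i
        simp only [dsc]
        linear_combination hy i
      refine ⟨y, ?_, ?_, ?_⟩
      · rw [Function.iterate_succ_apply', h1, e3]
      · rw [← e3]
        exact (Rp.mem h h2 hp' h5).1
      · rw [← e3, Nat.mul_succ]
        exact (Rp.add h hu (prim_add p hpL hxp) (k * m) k).2 ⟨_, h3, h5⟩
  have hHn : ∀ n u, (pt K)^[e * n] (dsc p x u) = dsc p x ((pt H)^[n] u) := by
    intro n
    induction n with
    | zero => intro u; rfl
    | succ n ih =>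
      intro u
      rw [Nat.mul_succ, Nat.add_comm, Function.iterate_add_apply, ih,
        Function.iterate_succ_apply']
      exact hH ((pt H)^[n] u)
  refine ⟨k * e, H, Nat.mul_pos hk he, hI, fun u hu n => ?_⟩
  obtain ⟨u', h1, h2, h3⟩ := hit u hu (e * n)
  rw [hHn] at h1
  rw [h1, Nat.mul_assoc]
  exact ⟨h2, h3⟩

end

end Pool.Agent.K1H69.MZ
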