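import Pool.Agent.K1H69.MZ.Win

set_option autoImplicit false

/-! Primitive vectors over the integers of an ultrametric field, closeness of the points of the
projective space. -/

namespace Pool.Agent.K1H69.MZ

open MvPolynomial Pool.Agent.H936R2

variable {ι : Type} {L : Type} [NormedField L] [IsUltrametricDist L]

/-- the norm of an integer -/
noncomputable def nm (x : unitBall L) : ℝ := ‖(x : L)‖

lemma nm_nonneg (x : unitBall L) : 0 ≤ nm x := norm_nonneg _
lemma nm_le_one (x : unitBall L) : nm x ≤ 1 := unitBall_norm_le x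
lemma nm_mul (x y : unitBall L) : nm (x * y) = nm x * nm y := by
  unfold nm; push_cast; exact norm_mul _ _
lemma nm_pow (x : unitBall L) (n : ℕ) : nm (x ^ n) = nm x ^ n := by
  unfold nm; push_cast; exact norm_pow _ _
lemma nm_neg (x : unitBall L) : nm (-x) = nm x := by
  unfold nm; push_cast; exact norm_neg _
lemma nm_sub_comm (x y : unitBall L) : nm (x - y) = nm (y - x) := by
  rw [← nm_neg, neg_sub]
lemma nm_add_le {x y : unitBall L} {δ : ℝ} (hx : nm x ≤ δ) (hy : nm y ≤ δ) : nm (x + y) ≤ δ := by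
  unfold nm at *; push_cast
  exact (IsUltrametricDist.norm_add_le_max _ _).trans (max_le hx hy)
lemma nm_sub_le {x y : unitBall L} {δ : ℝ} (hx : nm x ≤ δ) (hy : nm y ≤ δ) : nm (x - y) ≤ δ := by
  rw [sub_eq_add_neg]
  exact nm_add_le hx (by rwa [nm_neg])
lemma nm_mul_le_right (x : unitBall L) {y : unitBall L} {δ : ℝ} (hy : nm y ≤ δ) :
    nm (x * y) ≤ δ := by
  rw [nm_mul]
  exact (mul_le_of_le_one_left (nm_nonneg _) (nm_le_one _)).trans hy
lemma nm_mul_le_left {x : unitBall L} (y : unitBall L) {δ : ℝ} (hx : nm x ≤ δ) :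
    nm (x * y) ≤ δ := by
  rw [mul_comm]; exact nm_mul_le_right y hx
lemma nm_zero : nm (0 : unitBall L) = 0 := by simp [nm]
lemma nm_one : nm (1 : unitBall L) = 1 := by simp [nm]
lemma nm_eq_zero {x : unitBall L} : nm x = 0 ↔ x = 0 := by
  unfold nm; rw [norm_eq_zero]; exact_mod_cast Iff.rfl
lemma isUnit_iff (x : unitBall L) : IsUnit x ↔ nm x = 1 := unitBall_isUnit_iff x

lemma nm_eq_one_of_close {x y : unitBall L} {δ : ℝ} (hδ : δ < 1) (h : nm (x - y) ≤ δ)
    (hx : nm x = 1) : nm y = 1 := by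
  by_contra hne
  have hy : nm y < 1 := lt_of_le_of_ne (nm_le_one y) hne
  have h1 : nm x ≤ max δ (nm y) := by
    have : x = (x - y) + y := by ring
    rw [this]
    exact nm_add_le (h.trans (le_max_left _ _)) (le_max_right _ _)
  rw [hx] at h1
  exact absurd h1 (not_le.2 (max_lt hδ hy))

/-- primitive vectors -/
def Prim (z : ι → unitBall L) : Prop := ∃ i, nm (z i) = 1

/-- closeness of points of the projective space -/
def Cl (δ : ℝ) (z w : ι → unitBall L) : Prop := ∀ i j, nm (z i * w j - z j * w i) ≤ δ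

lemma Cl.mono {δ δ' : ℝ} (h : δ ≤ δ') {z w : ι → unitBall L} (hc : Cl δ z w) : Cl δ' z w :=
  fun i j => (hc i j).trans h

lemma Cl.symm {δ : ℝ} {z w : ι → unitBall L} (hc : Cl δ z w) : Cl δ w z := by
  intro i j
  have h := hc j i
  have e : w i * z j - w j * z i = z j * w i - z i * w j := by ring
  rw [e]; exact h

/-- near vectors are close up to a unit -/
lemma Cl.of_near {δ : ℝ} {z w : ι → unitBall L} {c : unitBall L}
    (h : ∀ j, nm (w j - c * z j) ≤ δ) : Cl δ z w := by
  intro i j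
  have e : z i * w j - z j * w i = z i * (w j - c * z j) - z j * (w i - c * z i) := by ring
  rw [e]
  exact nm_sub_le (nm_mul_le_right _ (h j)) (nm_mul_le_right _ (h i))

lemma Cl.near {δ : ℝ} (hδ : δ < 1) {z w : ι → unitBall L} (hz : Prim z)
    (hw : Prim w) (hc : Cl δ z w) : ∃ c : unitBall L, nm c = 1 ∧ ∀ j, nm (w j - c * z j) ≤ δ := by
  obtain ⟨i, hi⟩ := hz
  obtain ⟨j, hj⟩ := hw
  have h1 : nm (z i * w j) = 1 := by rw [nm_mul, hi, hj, one_mul]
  have h2 : nm (z j * w i) = 1 := nm_eq_one_of_close hδ (hc i j) h1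
  have hwi : nm (w i) = 1 := by
    rw [nm_mul] at h2
    have h3 := nm_le_one (z j)
    have h4 := nm_le_one (w i)
    have h5 := nm_nonneg (w i)
    apply le_antisymm h4
    rw [← h2]
    exact mul_le_of_le_one_left h5 h3
  obtain ⟨zi, hzi⟩ := (isUnit_iff (z i)).2 hi
  refine ⟨w i * ((zi⁻¹ : (unitBall L)ˣ) : unitBall L), ?_, fun l => ?_⟩
  · rw [nm_mul, hwi, (isUnit_iff _).1 (Units.isUnit zi⁻¹), one_mul]
  · have h3 : z i * ((zi⁻¹ : (unitBall L)ˣ) : unitBall L) = 1 := by
      rw [← hzi]; exact Units.mul_inv zi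
    have e : w l - w i * ((zi⁻¹ : (unitBall L)ˣ) : unitBall L) * z l =
        ((zi⁻¹ : (unitBall L)ˣ) : unitBall L) * (z i * w l - z l * w i) := by
      linear_combination (-w l) * h3
    rw [e]
    exact nm_mul_le_right _ (hc i l)

lemma Prim.of_near {δ : ℝ} (hδ : δ < 1) {z w : ι → unitBall L} {c : unitBall L}
    (hcu : nm c = 1) (hz : Prim z) (h : ∀ j, nm (w j - c * z j) ≤ δ) : Prim w := by
  obtain ⟨i, hi⟩ := hz
  refine ⟨i, nm_eq_one_of_close (x := c * z i) hδ ?_ ?_⟩
  · rw [nm_sub_comm]; exact h i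
  · rw [nm_mul, hcu, hi, one_mul]

lemma Prim.smul {z : ι → unitBall L} (hz : Prim z) {c : unitBall L} (hc : nm c = 1) :
    Prim (fun i => c * z i) := by
  obtain ⟨i, hi⟩ := hz
  exact ⟨i, by rw [nm_mul, hc, hi, one_mul]⟩

lemma Cl.trans {δ : ℝ} (hδ : δ < 1) {z w v : ι → unitBall L} (hz : Prim z) (hw : Prim w)
    (hv : Prim v) (h1 : Cl δ z w) (h2 : Cl δ w v) : Cl δ z v := by
  obtain ⟨c, hc, h⟩ := h1.near hδ hz hw
  obtain ⟨c', hc', h'⟩ := h2.near hδ hw hv
  refine Cl.of_near (c := c' * c) fun j => ?_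
  have e : v j - c' * c * z j = (v j - c' * w j) + c' * (w j - c * z j) := by ring
  rw [e]
  exact nm_add_le (h' j) (nm_mul_le_right _ (h j))

lemma Cl.smul_left {δ : ℝ} {z w : ι → unitBall L} {c : unitBall L} (h : Cl δ z w) :
    Cl δ (fun i => c * z i) w := by
  intro i j
  have e : c * z i * w j - c * z j * w i = c * (z i * w j - z j * w i) := by ring
  rw [e]
  exact nm_mul_le_right _ (h i j)

lemma Cl.of_smul_left {δ : ℝ} {z w : ι → unitBall L} {c : unitBall L} (hc : nm c = 1)
    (h : Cl δ (fun i => c * z i) w) : Cl δ z w := by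
  intro i j
  have h1 := h i j
  have e : c * z i * w j - c * z j * w i = c * (z i * w j - z j * w i) := by ring
  rw [e, nm_mul, hc, one_mul] at h1
  exact h1

lemma Cl.smul_right {δ : ℝ} {z w : ι → unitBall L} {c : unitBall L} (h : Cl δ z w) :
    Cl δ z (fun i => c * w i) := h.symm.smul_left.symm

lemma Cl.of_smul_right {δ : ℝ} {z w : ι → unitBall L} {c : unitBall L} (hc : nm c = 1)
    (h : Cl δ z (fun i => c * w i)) : Cl δ z w := (h.symm.of_smul_left hc).symm

lemma Cl.self {δ : ℝ} (hδ : 0 ≤ δ) (z : ι → unitBall L) : Cl δ z z := by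
  intro i j
  have e : z i * z j - z j * z i = 0 := by ring
  rw [e, nm_zero]; exact hδ

/-- Polynomials are Lipschitz. -/
lemma lip {z w : ι → unitBall L} {δ : ℝ} (hδ : 0 ≤ δ) (h : ∀ i, nm (z i - w i) ≤ δ)
    (P : MvPolynomial ι (unitBall L)) : nm (eval z P - eval w P) ≤ δ := by
  induction P using MvPolynomial.induction_on with
  | C a => simpa [nm_zero] using hδ
  | add p q hp hq =>
    rw [map_add, map_add]
    have e : eval z p + eval z q - (eval w p + eval w q) =
      (eval z p - eval w p) + (eval z q - eval w q) := by ring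
    rw [e]; exact nm_add_le hp hq
  | mul_X p i hp =>
    rw [map_mul, map_mul, eval_X, eval_X]
    have e : eval z p * z i - eval w p * w i =
      eval z p * (z i - w i) + (eval z p - eval w p) * w i := by ring
    rw [e]
    exact nm_add_le (nm_mul_le_right _ (h i)) (nm_mul_le_left _ hp)

lemma eval_hom {R : Type} [CommRing R] {P : MvPolynomial ι R} {d : ℕ} (hP : P.IsHomogeneous d)
    (c : R) (z : ι → R) : eval (fun i => c * z i) P = c ^ d * eval z P := by
  rw [eval_eq, eval_eq, Finset.mul_sum]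
  apply Finset.sum_congr rfl
  intro κ hκ
  have hdeg : κ.degree = d := by
    have := hP (mem_support_iff.1 hκ)
    rw [Finsupp.degree_eq_weight_one]; exact this
  have h3 : ∏ j ∈ κ.support, (c * z j) ^ κ j =
      c ^ d * ∏ j ∈ κ.support, (z j) ^ κ j := by
    rw [Finset.prod_congr rfl fun j _ => mul_pow _ _ _, Finset.prod_mul_distrib,
      Finset.prod_pow_eq_pow_sum]
    congr 2
  rw [h3]
  ring

/-- the contraction property of a tuple of forms at primitive values -/
lemma contr {g : ι → MvPolynomial ι (unitBall L)} {d : ℕ} (hg : ∀ i, (g i).IsHomogeneous d)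
    {δ : ℝ} (hδ0 : 0 ≤ δ) (hδ : δ < 1) {z w : ι → unitBall L} (hz : Prim z) (hw : Prim w)
    (h : Cl δ z w) (hgz : Prim (pt g z)) : Prim (pt g w) ∧ Cl δ (pt g z) (pt g w) := by
  obtain ⟨c, hc, hcl⟩ := h.near hδ hz hw
  have h1 : ∀ j, nm (pt g w j - c ^ d * pt g z j) ≤ δ := by
    intro j
    have h2 := lip (z := w) (w := fun i => c * z i) hδ0 hcl (g j)
    rw [eval_hom (hg j)] at h2
    exact h2
  have hcd : nm (c ^ d) = 1 := by rw [nm_pow, hc, one_pow]
  exact ⟨Prim.of_near hδ hcd hgz h1, Cl.of_near h1⟩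

end Pool.Agent.K1H69.MZ
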