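import Pool.Agent.K1H69.MZ.Fin

set_option autoImplicit false

/-! The main theorem, from the good reduction and the decomposition of the vanishing ideals. -/

namespace Pool.Agent.K1H69.MZ

open MvPolynomial Pool.Agent.H936R2 Pool.Agent.R847.Gap Topology

lemma exists_prime_norm_lt {K : Type} [Field K] [NumberField K] {L : Type}
    [NontriviallyNormedField L] [CompleteSpace L] [IsUltrametricDist L] [CharZero L]
    (σ : K →+* L) (hσ : DenseRange σ) : ∃ p : ℕ, p.Prime ∧ ‖(p : L)‖ < 1 := by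
  by_contra hn
  push Not at hn
  have h1 : ∀ n : ℕ, n ≠ 0 → ‖(n : L)‖ = 1 := by
    intro n
    induction n using Nat.recOnMul with
    | zero => intro h; exact absurd rfl h
    | one => intro _; simp
    | prime p hp =>
      intro _
      exact le_antisymm (IsUltrametricDist.norm_natCast_le_one L p) (hn p hp)
    | mul a b ha hb =>
      intro h
      rw [Nat.cast_mul, norm_mul, ha (left_ne_zero_of_mul h), hb (right_ne_zero_of_mul h), mul_one]
  obtain ⟨x, hx, hx1⟩ := Pool.Agent.W279.Tri.ratAbs_nontrivial σ hσ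
  apply hx1
  rw [Pool.Agent.W279.Tri.ratAbs_apply]
  have h2 : (x : L) = (x.num : L) / (x.den : L) := by
    conv_lhs => rw [← x.num_div_den]
    push_cast
    rfl
  have h3 : ‖(x.num : L)‖ = 1 := by
    have h4 : ‖((x.num.natAbs : ℕ) : L)‖ = 1 :=
      h1 _ (Int.natAbs_ne_zero.2 (Rat.num_ne_zero.2 hx))
    rcases Int.natAbs_eq x.num with h5 | h5
    · rw [h5, Int.cast_natCast]; exact h4
    · rw [h5, Int.cast_neg, norm_neg, Int.cast_natCast]; exact h4
  rw [h2, norm_div, h3, h1 _ x.den_nz, div_one]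

theorem main_of (hR : S_Red) (hZ : S_Zar) (K : Type) [Field K] [NumberField K] (n : ℕ)
    (S : Set (MvPolynomial (Fin (n + 1)) K)) (hS : ∀ s ∈ S, ∃ d : ℕ, s.IsHomogeneous d)
    (m : ℕ) (φ : Fin m → Aut S) :
    ∃ N : ℕ, 0 < N ∧ ∀ (L : Type) [NontriviallyNormedField L] [CompleteSpace L]
      [IsUltrametricDist L] (σ : K →+* L), DenseRange σ → ‖(N : L)‖ = 1 →
      ∃ k : ℕ, 0 < k ∧ ∀ x : Fin (n + 1) → L, x ≠ 0 → (∀ s ∈ S, eval₂ σ x s = 0) →
        ∃ T : Set (Ideal (MvPolynomial (Fin (n + 1)) K)), T.Finite ∧ T ⊆ Inv S φ k ∧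
        ∀ f : MvPolynomial (Fin (n + 1)) K, (∃ U ∈ 𝓝 x, f ∈ VI (Nb S σ U)) ↔
          ∀ P ∈ T, f ∈ P := by
  have h1 := fun i => hR K n S hS (φ i)
  choose N hN hNL using h1
  refine ⟨∏ i, N i, Finset.prod_pos fun i _ => hN i, ?_⟩
  intro L _ _ _ σ hσ hnorm
  have : CharZero L := charZero_of_injective_ringHom σ.injective
  have : ProperSpace L := Pool.Agent.W279.Tri.properSpace_of_denseRange σ hσ
  obtain ⟨p, hp, hpL⟩ := exists_prime_norm_lt σ hσ
  have : Fact p.Prime := ⟨hp⟩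
  have h2 : ∀ i, ‖(N i : L)‖ = 1 := by
    intro i
    refine le_antisymm (IsUltrametricDist.norm_natCast_le_one L _) ?_
    rw [← hnorm]
    obtain ⟨c, hc⟩ := Finset.dvd_prod_of_mem N (Finset.mem_univ i)
    rw [hc, Nat.cast_mul, norm_mul]
    exact mul_le_of_le_one_right (norm_nonneg _) (IsUltrametricDist.norm_natCast_le_one L c)
  choose F G hF hG hgood using fun i => hNL i L p hpL σ (h2 i)
  exact glob_main p hpL (fun Y => hZ K n Y) hS φ F G hF hgood

end Pool.Agent.K1H69.MZ
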