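import Pool.Agent.K1H69.MZ.Dyn

set_option autoImplicit false

/-! Interface: automorphisms of a projective variety given by tuples of forms, the statement of
the good reduction and the statement of the decomposition of a vanishing ideal. -/

namespace Pool.Agent.K1H69.MZ

open MvPolynomial Pool.Agent.H936R2 Pool.Agent.R847.Gap

section

variable {K : Type} [Field K] {ι : Type}

/-- The values of a family of polynomials over `K` at a vector over an extension `F` of `K`. -/
noncomputable def Val {F : Type} [Field F] (τ : K →+* F) (f : ι → MvPolynomial ι K) (z : ι → F) :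
    ι → F := fun i => eval₂ τ z (f i)

/-- Over every extension field, at every point `z` of `V(S)`: one of the tuples `f a` does not
vanish at `z`; each one which does not vanish at `z` has its value on `V(S)`, and each of the
tuples `g b` which does not vanish at this value brings it back to the point `z`. -/
def Half (S : Set (MvPolynomial ι K)) {m : ℕ} (f g : Fin m → ι → MvPolynomial ι K) : Prop :=
  ∀ (F : Type) [Field F] (τ : K →+* F) (z : ι → F), z ≠ 0 → (∀ s ∈ S, eval₂ τ z s = 0) →
    (∃ a, Val τ (f a) z ≠ 0) ∧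
    ∀ a, Val τ (f a) z ≠ 0 →
      (∀ s ∈ S, eval₂ τ (Val τ (f a) z) s = 0) ∧
      ∀ b, Val τ (g b) (Val τ (f a) z) ≠ 0 → ∃ c : F, Val τ (g b) (Val τ (f a) z) = c • z

/-- An automorphism of the projective variety `V(S)` together with its inverse, each of them
given by finitely many tuples of forms of positive degrees. -/
structure Aut (S : Set (MvPolynomial ι K)) where
  m : ℕ
  f : Fin m → ι → MvPolynomial ι K
  g : Fin m → ι → MvPolynomial ι K
  d : Fin m → ℕ
  e : Fin m → ℕ
  d_pos : ∀ a, 0 < d a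
  e_pos : ∀ a, 0 < e a
  f_hom : ∀ a i, (f a i).IsHomogeneous (d a)
  g_hom : ∀ a i, (g a i).IsHomogeneous (e a)
  left : Half S f g
  right : Half S g f

/-- The polynomials over the integers of `L` which are multiples of elements of `S`. -/
def QS {L : Type} [NormedField L] [IsUltrametricDist L] (σ : K →+* L)
    (S : Set (MvPolynomial ι K)) : Set (MvPolynomial ι (unitBall L)) :=
  {q | ∃ c : L, ∃ s ∈ S, map (unitBall L).subtype q = C c * map σ s}

/-- a system of tuples over the integers of `L` comes from tuples over `K` -/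
def Lifts {L : Type} [NormedField L] [IsUltrametricDist L] (σ : K →+* L) {m : ℕ}
    (f : Fin m → ι → MvPolynomial ι K) (F : Sys L ι (Fin m)) : Prop :=
  ∀ a i, map (unitBall L).subtype (F.f a i) = map σ (f a i)

end

/-- STATEMENT 1: good reduction. -/
def S_Red : Prop :=
  ∀ (K : Type) [Field K] [NumberField K] (n : ℕ) (S : Set (MvPolynomial (Fin (n + 1)) K)),
    (∀ s ∈ S, ∃ d : ℕ, s.IsHomogeneous d) → ∀ φ : Aut S,
    ∃ N : ℕ, 0 < N ∧ ∀ (L : Type) [NontriviallyNormedField L] [IsUltrametricDist L] [CharZero L]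
      (p : ℕ) [Fact p.Prime], ‖(p : L)‖ < 1 → ∀ σ : K →+* L, ‖(N : L)‖ = 1 →
      ∃ F G : Sys L (Fin (n + 1)) (Fin φ.m), Lifts σ φ.f F ∧ Lifts σ φ.g G ∧
        Good (QS σ S) F G

/-- the vanishing ideal of a set of points, as a set of polynomials -/
def VI {K ι : Type} [Field K] (Y : Set (ι → K)) : Ideal (MvPolynomial ι K) where
  carrier := {f | ∀ y ∈ Y, ∀ t : K, eval (t • y) f = 0}
  add_mem' := fun {a b} ha hb y hy t => by rw [map_add, ha y hy t, hb y hy t, add_zero]
  zero_mem' := fun y _ t => map_zero _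
  smul_mem' := fun c a ha y hy t => by rw [smul_eq_mul, map_mul, ha y hy t, mul_zero]

/-- STATEMENT 2: the minimal primes of a vanishing ideal. -/
def S_Zar : Prop :=
  ∀ (K : Type) [Field K] [Infinite K] (n : ℕ) (Y : Set (Fin (n + 1) → K)),
    (VI Y).minimalPrimes.Finite ∧ (∀ f, f ∈ VI Y ↔ ∀ P ∈ (VI Y).minimalPrimes, f ∈ P) ∧
    ∀ P ∈ (VI Y).minimalPrimes,
      (∃ (f₀ : MvPolynomial (Fin (n + 1)) K) (d : ℕ), f₀.IsHomogeneous d ∧
        P = VI {y | y ∈ Y ∧ eval y f₀ ≠ 0} ∧ ∀ g ∈ P, f₀ * g ∈ VI Y) ∧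
      ∀ f ∈ P, ∀ j : ℕ, homogeneousComponent j f ∈ P

end Pool.Agent.K1H69.MZ
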