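import Pool.Agent.R847.Gap.Shadow

set_option autoImplicit false

/-! Idempotent windows and shadow orbits over a locally compact ultrametric field. -/

namespace Pool.Agent.K1H69.MZ

open MvPolynomial Pool.Agent.H936R2 Pool.Agent.R847.Gap Filter Topology

variable {ι : Type} [Fintype ι] [DecidableEq ι]
variable {L : Type} [NormedField L] [IsUltrametricDist L] [ProperSpace L]

omit [DecidableEq ι] in
lemma compact_pair' {κ : Type} [Fintype κ] (y : ℕ → κ → unitBall L) (ε : ℝ) (hε : 0 < ε) :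
    ∃ n m, n < m ∧ ∀ j, ‖(y m j : L) - y n j‖ < ε := by
  let x : ℕ → κ → L := fun n j => y n j
  have hx : ∀ n, x n ∈ Metric.closedBall (0 : κ → L) 1 := by
    intro n
    rw [mem_closedBall_zero_iff, pi_norm_le_iff_of_nonneg zero_le_one]
    intro j
    exact unitBall_norm_le (y n j)
  obtain ⟨a, -, φ, hφ, hlim⟩ := (isCompact_closedBall (0 : κ → L) 1).tendsto_subseq hx
  have hc := hlim.cauchySeq
  rw [Metric.cauchySeq_iff] at hc
  obtain ⟨N, hN⟩ := hc ε hε
  refine ⟨φ N, φ (N + 1), hφ (Nat.lt_succ_self N), fun j => ?_⟩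
  have h2 := hN (N + 1) (Nat.le_succ N) N le_rfl
  rw [dist_eq_norm] at h2
  have h3 := norm_le_pi_norm (x (φ (N + 1)) - x (φ N)) j
  exact lt_of_le_of_lt h3 h2

variable (p : ℕ) [hp : Fact p.Prime] [CharZero L] (hpL : ‖(p : L)‖ < 1)

include hp in
omit [ProperSpace L] [IsUltrametricDist L] in
lemma norm_p_pos' : 0 < ‖(p : L)‖ := norm_pos_iff.2 (Nat.cast_ne_zero.2 hp.out.ne_zero)

include hp in
omit [ProperSpace L] in
lemma exists_div' (x : unitBall L) (e : ℕ) (hx : ‖(x : L)‖ ≤ ‖(p : L)‖ ^ e) :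
    ∃ z : unitBall L, x = (p : unitBall L) ^ e * z := by
  have hp0 := norm_p_pos' (L := L) p
  have hpne : (p : L) ≠ 0 := Nat.cast_ne_zero.2 hp.out.ne_zero
  refine ⟨⟨(x : L) / (p : L) ^ e, ?_⟩, ?_⟩
  · rw [mem_unitBall, norm_div, norm_pow, div_le_one (by positivity)]
    exact hx
  · apply Subtype.ext
    push_cast
    rw [mul_div_cancel₀]
    exact pow_ne_zero _ hpne

include hp in
/-- **Idempotent windows.** -/
theorem window (F : ι → MvPolynomial ι (unitBall L)) (b w : ι → unitBall L)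
    (hF : ∀ i, pt F b i = b i + (p : unitBall L) ^ 2 * w i) :
    ∃ (e : ℕ) (H : ι → MvPolynomial ι (unitBall L)), 0 < e ∧
      (∀ u : ι → unitBall L, (pt F)^[e] (fun i => b i + (p : unitBall L) ^ 2 * u i) =
          fun i => b i + (p : unitBall L) ^ 2 * pt H u i) ∧
      IdemMod ((p : unitBall L) ^ 2) H := by
  classical
  have hp0 := norm_p_pos' (L := L) p
  set π : unitBall L := (p : unitBall L) ^ 2 with hπ
  have hFb : ∀ i, (pt F)^[1] b i = b i + π * w i := hF
  -- the map in the scaled coordinate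
  obtain ⟨r, hr⟩ := itP_expand F π b 1
  let A : ι → ι → unitBall L := fun i j => itA F b 1 i j
  let h : ι → MvPolynomial ι (unitBall L) :=
    fun i => C (w i) + (∑ j, C (A i j) * X j) + C π * r i
  have hh : ∀ u : ι → unitBall L,
      (pt F)^[1] (fun i => b i + π * u i) = fun i => b i + π * pt h u i := by
    intro u
    funext i
    rw [← itP_eval, hr i]
    simp only [map_add, map_mul, eval_C, pt, eval_X, map_sum, hFb, map_pow, h, A]
    ring
  have haff := affine_pow π ⊤ h w A (fun i => Subring.mem_top _)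
    (fun i j => Subring.mem_top _) (fun i => ⟨r i, by simp only [h]; ring⟩)
  choose c m hc hm hcong using haff
  let y : ℕ → (ι ⊕ (ι × ι)) → unitBall L := fun n => Sum.elim
    (fun i => c n i) (fun q => m n q.1 q.2)
  obtain ⟨n1, m1, hnm1, hclose1⟩ := compact_pair' y (‖(p : L)‖ ^ 2) (by positivity)
  set T : MvPolynomial ι (unitBall L) →ₐ[unitBall L] MvPolynomial ι (unitBall L) := aeval h with hT
  have hTX : ∀ i, Cong π ((T ^ m1) (X i)) ((T ^ n1) (X i)) := by
    intro i
    refine (hcong m1 i).trans (Cong.trans ?_ (hcong n1 i).symm)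
    obtain ⟨z, hz⟩ := exists_div' p (c m1 i - c n1 i) 2 (hclose1 (Sum.inl i)).le
    have h2 : ∀ j, ∃ z, m m1 i j - m n1 i j = π * z := fun j =>
      exists_div' p _ 2 (hclose1 (Sum.inr (i, j))).le
    choose z' hz' using h2
    refine ⟨C z + ∑ j, C (z' j) * X j, ?_⟩
    have h3 : C (c m1 i) - C (c n1 i) = C π * (C z : MvPolynomial ι _) := by
      rw [← map_sub, hz, map_mul]
    have h4 : ∀ j, C (m m1 i j) - C (m n1 i j) = C π * (C (z' j) : MvPolynomial ι _) := by
      intro j
      rw [← map_sub, hz', map_mul]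
    have h5 : ∑ j, C (m m1 i j) * X j - ∑ j, C (m n1 i j) * X j =
        C π * ∑ j, (C (z' j) * X j : MvPolynomial ι _) := by
      rw [← Finset.sum_sub_distrib, Finset.mul_sum]
      apply Finset.sum_congr rfl
      intro j _
      rw [← sub_mul, h4]
      ring
    linear_combination h3 + h5
  obtain ⟨r1, hr1⟩ : ∃ r1, m1 = n1 + r1 := ⟨m1 - n1, by omega⟩
  have hr1pos : 0 < r1 := by omega
  have hTq : ∀ j, n1 ≤ j → ∀ q, Cong π ((T ^ (j + r1)) q) ((T ^ j) q) := by
    intro j hj q
    obtain ⟨l, rfl⟩ : ∃ l, j = n1 + l := ⟨j - n1, by omega⟩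
    have h2 := cong_algHom (T ^ m1) (T ^ n1) hTX ((T ^ l) q)
    rw [← AlgHom.mul_apply, ← AlgHom.mul_apply, ← pow_add, ← pow_add, hr1] at h2
    have h3 : n1 + r1 + l = n1 + l + r1 := by ring
    rwa [h3] at h2
  have hTs : ∀ s j, n1 ≤ j → ∀ q, Cong π ((T ^ (j + r1 * s)) q) ((T ^ j) q) := by
    intro s
    induction s with
    | zero => intro j _ q; simpa using Cong.refl π ((T ^ j) q)
    | succ s ih =>
      intro j hj q
      have h2 := hTq (j + r1 * s) (by omega) q
      have h3 := ih j hj q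
      have h4 : j + r1 * (s + 1) = j + r1 * s + r1 := by ring
      rw [h4]
      exact h2.trans h3
  set e := r1 * (n1 + 1) with he
  have hepos : 0 < e := Nat.mul_pos hr1pos (Nat.succ_pos _)
  have hen : n1 ≤ e := by
    rw [he]
    calc n1 ≤ 1 * (n1 + 1) := by omega
      _ ≤ r1 * (n1 + 1) := Nat.mul_le_mul_right _ hr1pos
  refine ⟨e, fun i => (T ^ e) (X i), hepos, fun u => ?_, fun q => ?_⟩
  · -- iterates of the scaled map
    have h2 : ∀ n, (pt F)^[n] (fun i => b i + π * u i) =
        fun i => b i + π * (pt h)^[n] u i := by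
      intro n
      induction n with
      | zero => funext i; simp
      | succ n ih =>
        rw [Function.iterate_succ_apply', ih]
        have := hh ((pt h)^[n] u)
        rw [Function.iterate_one] at this
        rw [this, Function.iterate_succ_apply']
    rw [h2 e]
    funext i
    congr 2
    simp only [pt]
    rw [hT, Pool.Agent.R847.Gap.eval_pow, eval_X]
  · rw [hT, aeval_pow_eq, ← hT, ← AlgHom.mul_apply, ← pow_add]
    have h2 := hTs (n1 + 1) e hen q
    rwa [← he] at h2

omit [ProperSpace L] [CharZero L] hp in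
lemma norm_pi_pow_mul' (k : ℕ) (z : unitBall L) :
    ‖((((p : unitBall L) ^ 2) ^ k * z : unitBall L) : L)‖ ≤ ‖(p : L)‖ ^ (2 * k) := by
  push_cast
  rw [norm_mul, norm_pow, norm_pow, ← pow_mul]
  calc ‖(p : L)‖ ^ (2 * k) * ‖(z : L)‖ ≤ ‖(p : L)‖ ^ (2 * k) * 1 :=
        mul_le_mul_of_nonneg_left (unitBall_norm_le z) (by positivity)
    _ = _ := mul_one _

include hp hpL in
omit [ProperSpace L] [CharZero L] in
lemma norm_p_pow_le_natCast' (j : ℕ) (hj : 0 < j) : ‖(p : L)‖ ^ j ≤ ‖((j : ℕ) : L)‖ := by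
  have h1 := norm_prime_pow_le_factorial (K := L) p hpL j
  refine h1.trans ?_
  have h2 : j.factorial = j * (j - 1).factorial := (Nat.mul_factorial_pred (by omega)).symm
  rw [h2]
  push_cast
  rw [norm_mul]
  calc _ ≤ ‖(j : L)‖ * 1 := mul_le_mul_of_nonneg_left
        (IsUltrametricDist.norm_natCast_le_one L _) (norm_nonneg _)
    _ = _ := mul_one _

include hp hpL in
omit [ProperSpace L] in
/-- Almost periodicity of the values. -/
lemma valSeq_shift' (H : ι → MvPolynomial ι (unitBall L))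
    (hH : IdemMod ((p : unitBall L) ^ 2) H)
    (u : ι → unitBall L) (q : MvPolynomial ι (unitBall L)) (n c : ℕ) :
    ‖((valSeq H u q (n + p ^ c) : unitBall L) : L) - valSeq H u q n‖ ≤
      max (‖(p : L)‖ ^ c) (‖(p : L)‖ ^ (2 * n)) := by
  have hp0 := norm_p_pos' (L := L) p
  have h1 := shift_eq_sum_fwdDiff_iter (1 : ℕ) (valSeq H u q) (p ^ c) n
  simp only [smul_eq_mul, mul_one] at h1
  rw [Finset.sum_range_succ'] at h1
  simp only [Function.iterate_zero, id_eq, Nat.choose_zero_right, one_smul] at h1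
  have h2 : ((valSeq H u q (n + p ^ c) : unitBall L) : L) -
      valSeq H u q n = ∑ j ∈ Finset.range (p ^ c),
        (((p ^ c).choose (j + 1) : ℕ) : L) *
          (((fwdDiff 1)^[j + 1] (valSeq H u q) n : unitBall L) : L) := by
    rw [h1]
    push_cast
    rw [add_sub_cancel_right]
    apply Finset.sum_congr rfl
    intro j _
    rw [nsmul_eq_mul]
  rw [h2]
  apply IsUltrametricDist.norm_sum_le_of_forall_le_of_nonneg (by positivity)
  intro j _
  rw [norm_mul]
  by_cases hj : j + 1 ≤ n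
  · apply le_max_of_le_left
    obtain ⟨z, hz⟩ := valSeq_diff_dvd _ H hH u q (j + 1) n (j + 1) hj le_rfl
    rw [hz]
    have h3 := norm_pi_pow_mul' (L := L) p (j + 1) z
    have h4 := norm_p_pow_le_natCast' (L := L) p hpL (j + 1) (by omega)
    have h5 : ‖(((p ^ c).choose (j + 1) : ℕ) : L)‖ * ‖((j + 1 : ℕ) : L)‖ ≤ ‖(p : L)‖ ^ c := by
      have h6 : p ^ c - 1 + 1 = p ^ c := Nat.succ_pred_eq_of_pos (pow_pos hp.out.pos _)
      have h7 := Nat.add_one_mul_choose_eq (p ^ c - 1) j
      rw [h6] at h7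
      have h8 := congrArg (Nat.cast : ℕ → L) h7
      rw [Nat.cast_mul, Nat.cast_mul] at h8
      rw [← norm_mul, ← h8, norm_mul, Nat.cast_pow, norm_pow]
      calc _ ≤ ‖(p : L)‖ ^ c * 1 := mul_le_mul_of_nonneg_left
            (IsUltrametricDist.norm_natCast_le_one L _) (by positivity)
        _ = _ := mul_one _
    calc ‖(((p ^ c).choose (j + 1) : ℕ) : L)‖ * _
        ≤ ‖(((p ^ c).choose (j + 1) : ℕ) : L)‖ * ‖(p : L)‖ ^ (2 * (j + 1)) :=
          mul_le_mul_of_nonneg_left h3 (norm_nonneg _)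
      _ = ‖(((p ^ c).choose (j + 1) : ℕ) : L)‖ * ‖(p : L)‖ ^ (j + 1) *
          ‖(p : L)‖ ^ (j + 1) := by ring
      _ ≤ ‖(((p ^ c).choose (j + 1) : ℕ) : L)‖ * ‖((j + 1 : ℕ) : L)‖ * 1 := by
          apply mul_le_mul _ (pow_le_one₀ hp0.le hpL.le) (by positivity) (by positivity)
          exact mul_le_mul_of_nonneg_left h4 (norm_nonneg _)
      _ ≤ _ := by rw [mul_one]; exact h5
  · apply le_max_of_le_right
    obtain ⟨z, hz⟩ := valSeq_diff_dvd _ H hH u q n n (j + 1) le_rfl (by omega)
    rw [hz]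
    have h3 := norm_pi_pow_mul' (L := L) p n z
    calc _ ≤ 1 * ‖(p : L)‖ ^ (2 * n) := mul_le_mul
          (IsUltrametricDist.norm_natCast_le_one L _) h3 (norm_nonneg _) zero_le_one
      _ = _ := one_mul _

include hp hpL in
/-- The shadow point: it has the orbit which is analytic in the time and exponentially near. -/
theorem exists_shadow' (H : ι → MvPolynomial ι (unitBall L))
    (hH : IdemMod ((p : unitBall L) ^ 2) H) (u : ι → unitBall L) :
    ∃ y : ι → unitBall L, ∀ q : MvPolynomial ι (unitBall L),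
      (∀ n, ‖((valSeq H u q n : unitBall L) : L) - valSeq H y q n‖ ≤ ‖(p : L)‖ ^ (2 * n)) ∧
      (∀ j, ‖(((fwdDiff 1)^[j] (valSeq H y q) 0 : unitBall L) : L)‖ ≤ ‖(p : L)‖ ^ (2 * j)) ∧
      ((∀ n, valSeq H u q n = 0) → ∀ n, valSeq H y q n = 0) := by
  classical
  have hp0 := norm_p_pos' (L := L) p
  let x : ℕ → ι → L := fun c j => ((pt H)^[p ^ c] u j : unitBall L)
  have hx : ∀ c, x c ∈ Metric.closedBall (0 : ι → L) 1 := by
    intro c
    rw [mem_closedBall_zero_iff, pi_norm_le_iff_of_nonneg zero_le_one]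
    intro j
    exact unitBall_norm_le ((pt H)^[p ^ c] u j)
  obtain ⟨Y, hY, φ, hφ, hlim⟩ := (isCompact_closedBall (0 : ι → L) 1).tendsto_subseq hx
  rw [mem_closedBall_zero_iff, pi_norm_le_iff_of_nonneg zero_le_one] at hY
  let y : ι → unitBall L := fun i => ⟨Y i, hY i⟩
  have hlim' : Tendsto (fun c => (pt H)^[p ^ φ c] u) atTop (𝓝 y) := by
    rw [tendsto_pi_nhds]
    intro i
    rw [tendsto_subtype_rng]
    exact (tendsto_pi_nhds.1 hlim) i
  have hval : ∀ (q : MvPolynomial ι (unitBall L)) n,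
      Tendsto (fun c => valSeq H u q (n + p ^ φ c)) atTop (𝓝 (valSeq H y q n)) := by
    intro q n
    have hcont : Continuous (fun v : ι → unitBall L => eval ((pt H)^[n] v) q) := by
      have h1 : Continuous (pt H) := by
        apply continuous_pi
        intro i
        exact MvPolynomial.continuous_eval _
      exact (MvPolynomial.continuous_eval _).comp (h1.iterate n)
    have h2 := (hcont.tendsto y).comp hlim'
    refine h2.congr fun c => ?_
    simp only [Function.comp_apply, valSeq]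
    rw [← Function.iterate_add_apply]
  refine ⟨y, fun q => ⟨fun n => ?_, fun j => ?_, fun h0 n => ?_⟩⟩
  · have h1 : Tendsto (fun c => ‖((valSeq H u q (n + p ^ φ c) : unitBall L) :
        L) - valSeq H u q n‖) atTop
        (𝓝 ‖((valSeq H y q n : unitBall L) : L) - valSeq H u q n‖) :=
      (((continuous_subtype_val.tendsto _).comp (hval q n)).sub_const _).norm
    rw [norm_sub_rev]
    refine le_of_tendsto h1 ?_
    obtain ⟨m, hm⟩ := exists_pow_lt_of_lt_one (show 0 < ‖(p : L)‖ ^ (2 * n) by positivity) hpL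
    filter_upwards [eventually_ge_atTop m] with c hc
    refine (valSeq_shift' p hpL H hH u q n (φ c)).trans (max_le ?_ le_rfl)
    refine le_trans ?_ hm.le
    exact pow_le_pow_of_le_one hp0.le hpL.le (hc.trans (hφ.le_apply))
  · have h1 := hval ((fun q => (aeval H : MvPolynomial ι (unitBall L) →ₐ[_]
        MvPolynomial ι (unitBall L)) q - q)^[j] q) 0
    rw [← valSeq_fwdDiff_iterate, ← valSeq_fwdDiff_iterate] at h1
    have h2 : Tendsto (fun c => ‖(((fwdDiff 1)^[j] (valSeq H u q) (0 + p ^ φ c) :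
        unitBall L) : L)‖) atTop
        (𝓝 ‖(((fwdDiff 1)^[j] (valSeq H y q) 0 : unitBall L) : L)‖) :=
      ((continuous_subtype_val.tendsto _).comp h1).norm
    refine le_of_tendsto h2 ?_
    filter_upwards [eventually_ge_atTop j] with c hc
    have h3 : j ≤ 0 + p ^ φ c := by
      have h4 : j ≤ φ c := hc.trans hφ.le_apply
      have h5 : φ c < p ^ φ c := Nat.lt_pow_self hp.out.one_lt
      omega
    obtain ⟨z, hz⟩ := valSeq_diff_dvd _ H hH u q j (0 + p ^ φ c) j h3 le_rfl
    rw [hz]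
    exact norm_pi_pow_mul' p j z
  · have h1 := hval q n
    have h3 : Tendsto (fun _ : ℕ => (0 : unitBall L)) atTop (𝓝 0) := tendsto_const_nhds
    refine tendsto_nhds_unique h1 (h3.congr fun c => ?_)
    exact (h0 (n + p ^ φ c)).symm

end Pool.Agent.K1H69.MZ
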