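import Pool.Agent.K1H69.MZ.Stm

/-! # The minimal primes of a vanishing ideal (helper65, task 62 of helper69) -/

set_option autoImplicit false

namespace Pool.Agent.K1H69.MZ

open MvPolynomial

namespace Zar

variable {K ι : Type} [Field K]

lemma eval_smul {f : MvPolynomial ι K} {d : ℕ} (h : f.IsHomogeneous d) (t : K) (y : ι → K) :
    eval (t • y) f = t ^ d * eval y f := by
  rw [eval_eq, eval_eq, Finset.mul_sum]
  refine Finset.sum_congr rfl fun s hs => ?_
  have h1 : s.degree = d := by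
    have h0 := h (mem_support_iff.1 hs)
    rw [← h0, Finsupp.degree_eq_weight_one]
    rfl
  have h2 : ∏ i ∈ s.support, (t • y) i ^ s i = t ^ d * ∏ i ∈ s.support, y i ^ s i := by
    simp only [Pi.smul_apply, smul_eq_mul, mul_pow]
    rw [Finset.prod_mul_distrib, Finset.prod_pow_eq_pow_sum, ← h1]
    rfl
  rw [h2]; ring

/-- the polynomial `t ↦ f (t y)` -/
noncomputable def Q (y : ι → K) (f : MvPolynomial ι K) : Polynomial K :=
  ∑ j ∈ Finset.range (f.totalDegree + 1),
    Polynomial.C (eval y (homogeneousComponent j f)) * Polynomial.X ^ j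

lemma Q_eval (y : ι → K) (f : MvPolynomial ι K) (t : K) : (Q y f).eval t = eval (t • y) f := by
  conv_rhs => rw [← sum_homogeneousComponent f, map_sum]
  rw [Q, Polynomial.eval_finsetSum]
  refine Finset.sum_congr rfl fun j _ => ?_
  rw [eval_smul (homogeneousComponent_isHomogeneous j f), Polynomial.eval_mul, Polynomial.eval_C,
    Polynomial.eval_pow, Polynomial.eval_X, mul_comm]

lemma Q_coeff (y : ι → K) (f : MvPolynomial ι K) (j : ℕ) :
    (Q y f).coeff j = eval y (homogeneousComponent j f) := by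
  rw [Q, Polynomial.finsetSum_coeff]
  simp only [Polynomial.coeff_C_mul, Polynomial.coeff_X_pow]
  by_cases hj : j ∈ Finset.range (f.totalDegree + 1)
  · rw [Finset.sum_eq_single j]
    · simp
    · intro i _ hi; rw [if_neg (Ne.symm hi)]; simp
    · intro h; exact absurd hj h
  · rw [Finset.sum_eq_zero]
    · rw [homogeneousComponent_eq_zero]
      · simp
      · rw [Finset.mem_range] at hj; omega
    · intro i hi
      rw [if_neg]
      · simp
      · rintro rfl; exact hj hi

variable [Infinite K]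

lemma mem_single {y : ι → K} {f : MvPolynomial ι K} : f ∈ VI {y} ↔ Q y f = 0 := by
  constructor
  · intro h
    refine Polynomial.funext fun t => ?_
    rw [Q_eval, Polynomial.eval_zero]
    exact h y rfl t
  · rintro h z rfl t
    rw [← Q_eval, h, Polynomial.eval_zero]

lemma mem_VI {Y : Set (ι → K)} {f : MvPolynomial ι K} : f ∈ VI Y ↔ ∀ y ∈ Y, f ∈ VI {y} := by
  constructor
  · rintro h y hy z rfl t
    exact h z hy t
  · intro h y hy t
    exact h y hy y rfl t

instance prime_single (y : ι → K) : (VI {y} : Ideal (MvPolynomial ι K)).IsPrime := by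
  constructor
  · rw [Ideal.ne_top_iff_one]
    intro h
    have := h y rfl 0
    simp at this
  · intro f g h
    have h0 : Q y f * Q y g = 0 := by
      refine Polynomial.funext fun t => ?_
      rw [Polynomial.eval_mul, Q_eval, Q_eval, Polynomial.eval_zero, ← map_mul]
      exact h y rfl t
    rcases mul_eq_zero.1 h0 with h | h
    · exact Or.inl (mem_single.2 h)
    · exact Or.inr (mem_single.2 h)

lemma comp_mem {Y : Set (ι → K)} {f : MvPolynomial ι K} (h : f ∈ VI Y) (j : ℕ) :
    homogeneousComponent j f ∈ VI Y := by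
  intro y hy t
  rw [eval_smul (homogeneousComponent_isHomogeneous j f)]
  have h1 : Q y f = 0 := mem_single.1 (mem_VI.1 h y hy)
  rw [← Q_coeff, h1, Polynomial.coeff_zero, mul_zero]

lemma radical (Y : Set (ι → K)) : (VI Y).radical = VI Y := by
  refine le_antisymm ?_ Ideal.le_radical
  intro f hf
  obtain ⟨n, hn⟩ := hf
  rw [mem_VI]
  intro y hy
  exact (prime_single y).mem_of_pow_mem n (mem_VI.1 hn y hy)

/-- if `f₀` is homogeneous, outside the prime `P` and in all the other minimal primes then `P` is the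
vanishing ideal of the points of `Y` at which `f₀` does not vanish -/
lemma eqVI {Y : Set (ι → K)} {P : Ideal (MvPolynomial ι K)} (hP : P ∈ (VI Y).minimalPrimes)
    (hI : ∀ f, f ∈ VI Y ↔ ∀ P ∈ (VI Y).minimalPrimes, f ∈ P) {f₀ : MvPolynomial ι K} {d : ℕ}
    (hd : f₀.IsHomogeneous d) (h0 : f₀ ∉ P) (h1 : ∀ Q ∈ (VI Y).minimalPrimes, Q ≠ P → f₀ ∈ Q) :
    P = VI {y | y ∈ Y ∧ eval y f₀ ≠ 0} ∧ ∀ g ∈ P, f₀ * g ∈ VI Y := by
  have hmul : ∀ g ∈ P, f₀ * g ∈ VI Y := by
    intro g hg
    rw [hI]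
    intro Q hQ
    by_cases hQP : Q = P
    · rw [hQP]; exact Ideal.mul_mem_left _ _ hg
    · exact Ideal.mul_mem_right _ _ (h1 Q hQ hQP)
  refine ⟨le_antisymm ?_ ?_, hmul⟩
  · intro g hg
    rw [mem_VI]
    rintro y ⟨hy, hy0⟩
    rw [mem_single]
    have h2 := hmul g hg y hy
    refine Polynomial.eq_zero_of_infinite_isRoot _ ?_
    have h3 : {t : K | t ≠ 0} ⊆ {x | (Q y g).IsRoot x} := by
      intro t ht
      have h4 := h2 t
      rw [map_mul, eval_smul hd] at h4
      rw [Set.mem_ofPred_eq, Polynomial.IsRoot, Q_eval]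
      rcases mul_eq_zero.1 h4 with h5 | h5
      · exact absurd h5 (mul_ne_zero (pow_ne_zero _ ht) hy0)
      · exact h5
    refine Set.Infinite.mono h3 ?_
    have : ({0} : Set K)ᶜ.Infinite := Set.Finite.infinite_compl (Set.finite_singleton _)
    exact this
  · intro g hg
    have h2 : f₀ * g ∈ VI Y := by
      intro y hy t
      rw [map_mul, eval_smul hd]
      by_cases hy0 : eval y f₀ = 0
      · rw [hy0, mul_zero, zero_mul]
      · rw [hg y ⟨hy, hy0⟩ t, mul_zero]
    have h3 : f₀ * g ∈ P := (hI _).1 h2 P hP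
    exact (hP.1.1.mem_or_mem h3).resolve_left h0

end Zar

open Zar in
theorem S_Zar_holds : S_Zar := by
  classical
  intro K _ _ n Y
  have hfin : (VI Y).minimalPrimes.Finite := Ideal.finite_minimalPrimes_of_isNoetherianRing _ _
  have hI : ∀ f, f ∈ VI Y ↔ ∀ P ∈ (VI Y).minimalPrimes, f ∈ P := by
    intro f
    conv_lhs => rw [← Zar.radical Y, ← Ideal.sInf_minimalPrimes, Submodule.mem_sInf]
  refine ⟨hfin, hI, fun P hP => ?_⟩
  -- an element of the other minimal primes, outside `P`
  obtain ⟨h, hhP, hh⟩ : ∃ h : MvPolynomial (Fin (n + 1)) K, h ∉ P ∧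
      ∀ Q ∈ (VI Y).minimalPrimes, Q ≠ P → h ∈ Q := by
    have h1 : ∀ Q ∈ (VI Y).minimalPrimes, Q ≠ P → ∃ q ∈ Q, q ∉ P := by
      intro Q hQ hQP
      by_contra hcon
      push Not at hcon
      have h2 : Q ≤ P := hcon
      exact hQP (le_antisymm h2 (hP.2 hQ.1 h2))
    choose! q hq1 hq2 using h1
    refine ⟨∏ Q ∈ hfin.toFinset.erase P, q Q, ?_, ?_⟩
    · intro hcon
      have := hP.1.1
      rw [Ideal.IsPrime.prod_mem_iff] at hcon
      obtain ⟨Q, hQ, hQ2⟩ := hcon
      rw [Finset.mem_erase, Set.Finite.mem_toFinset] at hQ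
      exact hq2 Q hQ.2 hQ.1 hQ2
    · intro Q hQ hQP
      have hmem : Q ∈ hfin.toFinset.erase P := by
        rw [Finset.mem_erase, Set.Finite.mem_toFinset]; exact ⟨hQP, hQ⟩
      rw [← Finset.mul_prod_erase _ _ hmem]
      exact Ideal.mul_mem_right _ _ (hq1 Q hQ hQP)
  -- every minimal prime is a vanishing ideal
  have hcomp : ∀ P ∈ (VI Y).minimalPrimes, ∀ f ∈ P, ∀ j : ℕ, homogeneousComponent j f ∈ P := by
    intro P hP f hf j
    obtain ⟨h, hhP, hh⟩ : ∃ h : MvPolynomial (Fin (n + 1)) K, h ∉ P ∧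
        ∀ Q ∈ (VI Y).minimalPrimes, Q ≠ P → h ∈ Q := by
      have h1 : ∀ Q ∈ (VI Y).minimalPrimes, Q ≠ P → ∃ q ∈ Q, q ∉ P := by
        intro Q hQ hQP
        by_contra hcon
        push Not at hcon
        have h2 : Q ≤ P := hcon
        exact hQP (le_antisymm h2 (hP.2 hQ.1 h2))
      choose! q hq1 hq2 using h1
      refine ⟨∏ Q ∈ hfin.toFinset.erase P, q Q, ?_, ?_⟩
      · intro hcon
        have := hP.1.1
        rw [Ideal.IsPrime.prod_mem_iff] at hcon
        obtain ⟨Q, hQ, hQ2⟩ := hcon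
        rw [Finset.mem_erase, Set.Finite.mem_toFinset] at hQ
        exact hq2 Q hQ.2 hQ.1 hQ2
      · intro Q hQ hQP
        have hmem : Q ∈ hfin.toFinset.erase P := by
          rw [Finset.mem_erase, Set.Finite.mem_toFinset]; exact ⟨hQP, hQ⟩
        rw [← Finset.mul_prod_erase _ _ hmem]
        exact Ideal.mul_mem_right _ _ (hq1 Q hQ hQP)
    -- `P = VI Y_P`
    have hPY : ∀ g, g ∈ VI {y | y ∈ Y ∧ P ≤ VI {y}} → g ∈ P := by
      intro g hg
      have h2 : g * h ∈ VI Y := by
        rw [mem_VI]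
        intro y hy
        by_cases hPy : P ≤ VI {y}
        · exact Ideal.mul_mem_right _ _ (mem_VI.1 hg y ⟨hy, hPy⟩)
        · have h3 : VI Y ≤ VI {y} := fun f hf => mem_VI.1 hf y hy
          obtain ⟨Q, hQ, hQy⟩ := Ideal.exists_minimalPrimes_le h3
          have hQP : Q ≠ P := by rintro rfl; exact hPy hQy
          exact Ideal.mul_mem_left _ _ (hQy (hh Q hQ hQP))
      exact (hP.1.1.mem_or_mem ((hI _).1 h2 P hP)).resolve_right hhP
    apply hPY
    apply comp_mem
    rw [mem_VI]
    rintro y ⟨_, hPy⟩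
    exact hPy hf
  -- a homogeneous one
  obtain ⟨j, hj⟩ : ∃ j, homogeneousComponent j h ∉ P := by
    by_contra hcon
    push Not at hcon
    apply hhP
    rw [← sum_homogeneousComponent h]
    exact Ideal.sum_mem _ fun j _ => hcon j
  have h2 := eqVI hP hI (homogeneousComponent_isHomogeneous j h) hj
    (fun Q hQ hQP => hcomp Q hQ h (hh Q hQ hQP) j)
  exact ⟨⟨_, j, homogeneousComponent_isHomogeneous j h, h2.1, h2.2⟩, hcomp P hP⟩

end Pool.Agent.K1H69.MZ
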